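import Mathlib
import Pool.Agent.Lib.MP_4b1e7e_an.Coeff

/-!
# Fourier coefficients of the real part of a holomorphic function on a circle
-/

set_option autoImplicit false

namespace Pool.Agent.MobConv

open Metric Filter Topology Set MeasureTheory

variable {P : ℂ → ℂ} {ρ : ℝ}

theorem diffCont_ball (hP : DifferentiableOn ℂ P (ball 0 1)) (h1 : ρ < 1) :
    DiffContOnCl ℂ P (ball 0 ρ) := by
  refine DifferentiableOn.diffContOnCl (hP.mono ?_)
  exact closure_ball_subset_closedBall.trans (closedBall_subset_ball h1)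

theorem diffOn_closedBall (hP : DifferentiableOn ℂ P (ball 0 1)) (h1 : ρ < 1) :
    DifferentiableOn ℂ P (closedBall 0 ρ) :=
  hP.mono (closedBall_subset_ball h1)

theorem circleMap_mem_ball' (h0 : 0 < ρ) (h1 : ρ < 1) (θ : ℝ) :
    circleMap 0 ρ θ ∈ ball (0 : ℂ) 1 := by
  rw [mem_ball_zero_iff, norm_circleMap_zero, abs_of_pos h0]
  exact h1

theorem continuous_circle (hP : DifferentiableOn ℂ P (ball 0 1)) (h0 : 0 < ρ) (h1 : ρ < 1) :
    Continuous fun θ : ℝ => P (circleMap 0 ρ θ) :=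
  hP.continuousOn.comp_continuous (by fun_prop) (circleMap_mem_ball' h0 h1)

/-- Negative frequencies: the Cauchy formula. -/
theorem integral_exp_neg (hP : DifferentiableOn ℂ P (ball 0 1)) (h0 : 0 < ρ) (h1 : ρ < 1)
    (n : ℕ) : ∫ θ in (0 : ℝ)..2 * Real.pi, Complex.exp (-((n : ℂ) * θ * Complex.I)) *
      P (circleMap 0 ρ θ) = 2 * Real.pi * (tcoeff P n * ρ ^ n) := by
  have h2 := (diffOn_closedBall hP h1).circleIntegral_one_div_sub_center_pow_smul h0 n
  rw [circleIntegral] at h2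
  have hρ : (ρ : ℂ) ≠ 0 := by exact_mod_cast h0.ne'
  have h3 : ∀ θ : ℝ, Complex.exp (-((n : ℂ) * θ * Complex.I)) * P (circleMap 0 ρ θ) =
      (ρ ^ n / Complex.I : ℂ) * (deriv (circleMap 0 ρ) θ •
        (1 / (circleMap 0 ρ θ - 0) ^ (n + 1)) • P (circleMap 0 ρ θ)) := by
    intro θ
    have hc : circleMap 0 ρ θ = ρ * Complex.exp (θ * Complex.I) := by
      simp [circleMap]
    have he : Complex.exp (-((n : ℂ) * θ * Complex.I)) = (Complex.exp (θ * Complex.I) ^ n)⁻¹ := by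
      rw [← Complex.exp_nat_mul, ← Complex.exp_neg]
      congr 1
      ring
    have hne : Complex.exp (θ * Complex.I) ≠ 0 := Complex.exp_ne_zero _
    rw [deriv_circleMap, sub_zero, smul_eq_mul, smul_eq_mul, he, hc]
    have hI := Complex.I_ne_zero
    field_simp
    ring
  rw [intervalIntegral.integral_congr (g := fun θ => (ρ ^ n / Complex.I : ℂ) *
    (deriv (circleMap 0 ρ) θ • (1 / (circleMap 0 ρ θ - 0) ^ (n + 1)) • P (circleMap 0 ρ θ)))
    (fun θ _ => h3 θ), intervalIntegral.integral_const_mul, h2, tcoeff, smul_eq_mul]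
  have hI := Complex.I_ne_zero
  field_simp

/-- Positive frequencies: the mean value property. -/
theorem integral_exp_pos (hP : DifferentiableOn ℂ P (ball 0 1)) (h0 : 0 < ρ) (h1 : ρ < 1)
    {n : ℕ} (hn : 1 ≤ n) : ∫ θ in (0 : ℝ)..2 * Real.pi, Complex.exp ((n : ℂ) * θ * Complex.I) *
      P (circleMap 0 ρ θ) = 0 := by
  have hQ : DiffContOnCl ℂ (fun z => z ^ n * P z) (ball 0 |ρ|) := by
    rw [abs_of_pos h0]
    exact diffCont_ball ((differentiableOn_id.pow n).mul hP) h1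
  have h2 := hQ.circleAverage
  rw [zero_pow (by omega), zero_mul, Real.circleAverage_def] at h2
  have hρ : (ρ : ℂ) ≠ 0 := by exact_mod_cast h0.ne'
  have h3 : ∀ θ : ℝ, Complex.exp ((n : ℂ) * θ * Complex.I) * P (circleMap 0 ρ θ) =
      ((ρ : ℂ) ^ n)⁻¹ * (circleMap 0 ρ θ ^ n * P (circleMap 0 ρ θ)) := by
    intro θ
    have hc : circleMap 0 ρ θ = ρ * Complex.exp (θ * Complex.I) := by
      simp [circleMap]
    have he : Complex.exp ((n : ℂ) * θ * Complex.I) = Complex.exp (θ * Complex.I) ^ n := by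
      rw [← Complex.exp_nat_mul]
      congr 1
      ring
    rw [he, hc]
    field_simp
    ring
  rw [intervalIntegral.integral_congr (g := fun θ => ((ρ : ℂ) ^ n)⁻¹ *
    (circleMap 0 ρ θ ^ n * P (circleMap 0 ρ θ))) (fun θ _ => h3 θ),
    intervalIntegral.integral_const_mul]
  rw [smul_eq_zero] at h2
  rcases h2 with h2 | h2
  · exact absurd h2 (inv_ne_zero Real.two_pi_pos.ne')
  · rw [h2, mul_zero]

theorem integral_re (hP : DifferentiableOn ℂ P (ball 0 1)) (h0 : 0 < ρ) (h1 : ρ < 1)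
    {n : ℕ} (hn : 1 ≤ n) : ∫ θ in (0 : ℝ)..2 * Real.pi, Complex.exp (-((n : ℂ) * θ * Complex.I)) *
      ((P (circleMap 0 ρ θ)).re : ℂ) = Real.pi * (tcoeff P n * ρ ^ n) := by
  have hc := continuous_circle hP h0 h1
  have h2 := integral_exp_neg hP h0 h1 n
  have h3 := integral_exp_pos hP h0 h1 hn
  have h4 : ∫ θ in (0 : ℝ)..2 * Real.pi, Complex.exp (-((n : ℂ) * θ * Complex.I)) *
      (starRingEnd ℂ) (P (circleMap 0 ρ θ)) = 0 := by
    have h5 : ∀ θ : ℝ, Complex.exp (-((n : ℂ) * θ * Complex.I)) *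
        (starRingEnd ℂ) (P (circleMap 0 ρ θ)) =
        (starRingEnd ℂ) (Complex.exp ((n : ℂ) * θ * Complex.I) * P (circleMap 0 ρ θ)) := by
      intro θ
      rw [map_mul, ← Complex.exp_conj, map_mul, map_mul, Complex.conj_I, Complex.conj_ofReal,
        Complex.conj_natCast]
      congr 2
      ring
    rw [intervalIntegral.integral_congr (g := fun θ : ℝ => (starRingEnd ℂ)
      (Complex.exp ((n : ℂ) * θ * Complex.I) * P (circleMap 0 ρ θ))) (fun θ _ => h5 θ),
      intervalIntegral.intervalIntegral_conj, h3, map_zero]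
  have h6 : ∀ θ : ℝ, Complex.exp (-((n : ℂ) * θ * Complex.I)) * ((P (circleMap 0 ρ θ)).re : ℂ) =
      2⁻¹ * (Complex.exp (-((n : ℂ) * θ * Complex.I)) * P (circleMap 0 ρ θ) +
        Complex.exp (-((n : ℂ) * θ * Complex.I)) * (starRingEnd ℂ) (P (circleMap 0 ρ θ))) := by
    intro θ
    rw [Complex.re_eq_add_conj]
    ring
  rw [intervalIntegral.integral_congr (g := fun θ : ℝ => (2⁻¹ : ℂ) *
    (Complex.exp (-((n : ℂ) * θ * Complex.I)) * P (circleMap 0 ρ θ) +
      Complex.exp (-((n : ℂ) * θ * Complex.I)) * (starRingEnd ℂ) (P (circleMap 0 ρ θ))))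
    (fun θ _ => h6 θ), intervalIntegral.integral_const_mul, intervalIntegral.integral_add, h2, h4]
  · ring
  · apply Continuous.intervalIntegrable
    exact (by fun_prop : Continuous fun θ : ℝ => Complex.exp (-((n : ℂ) * θ * Complex.I))).mul hc
  · apply Continuous.intervalIntegrable
    exact (by fun_prop : Continuous fun θ : ℝ => Complex.exp (-((n : ℂ) * θ * Complex.I))).mul
      (Complex.continuous_conj.comp hc)

/-- The mean value of the real part. -/
theorem integral_re_zero (hP : DifferentiableOn ℂ P (ball 0 1)) (h0 : 0 < ρ) (h1 : ρ < 1) :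
    ∫ θ in (0 : ℝ)..2 * Real.pi, (P (circleMap 0 ρ θ)).re = 2 * Real.pi * (P 0).re := by
  have hQ : DiffContOnCl ℂ P (ball 0 |ρ|) := by
    rw [abs_of_pos h0]
    exact diffCont_ball hP h1
  have h2 := hQ.circleAverage
  rw [Real.circleAverage_def] at h2
  have h3 : ∫ θ in (0 : ℝ)..2 * Real.pi, P (circleMap 0 ρ θ) = (2 * Real.pi) • P 0 := by
    rw [← h2, smul_smul, mul_inv_cancel₀ Real.two_pi_pos.ne', one_smul]
  have hc := continuous_circle hP h0 h1
  have h4 : ∫ θ in (0 : ℝ)..2 * Real.pi, (P (circleMap 0 ρ θ)).re =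
      (∫ θ in (0 : ℝ)..2 * Real.pi, P (circleMap 0 ρ θ)).re := by
    have := Complex.reCLM.intervalIntegral_comp_comm (hc.intervalIntegrable 0 (2 * Real.pi)
      (μ := volume))
    simpa using this
  rw [h4, h3, Complex.real_smul, Complex.re_ofReal_mul]

theorem norm_exp_neg_mul (n : ℕ) (θ : ℝ) : ‖Complex.exp (-((n : ℂ) * θ * Complex.I))‖ = 1 := by
  have : -((n : ℂ) * θ * Complex.I) = ((-(n * θ) : ℝ) : ℂ) * Complex.I := by
    push_cast
    ring
  rw [this, Complex.norm_exp_ofReal_mul_I]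

/-- **Caratheodory's bound.** -/
theorem caratheodory (hP : DifferentiableOn ℂ P (ball 0 1))
    (hre : ∀ z ∈ ball (0 : ℂ) 1, 0 ≤ (P z).re) {n : ℕ} (hn : 1 ≤ n) :
    ‖tcoeff P n‖ ≤ 2 * (P 0).re := by
  have key : ∀ ρ : ℝ, 0 < ρ → ρ < 1 → ‖tcoeff P n‖ * ρ ^ n ≤ 2 * (P 0).re := by
    intro ρ h0 h1
    have h2 := integral_re hP h0 h1 hn
    have h3 : ‖∫ θ in (0 : ℝ)..2 * Real.pi, Complex.exp (-((n : ℂ) * θ * Complex.I)) *
        ((P (circleMap 0 ρ θ)).re : ℂ)‖ ≤ ∫ θ in (0 : ℝ)..2 * Real.pi, (P (circleMap 0 ρ θ)).re := by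
      refine (intervalIntegral.norm_integral_le_integral_norm Real.two_pi_pos.le).trans_eq ?_
      refine intervalIntegral.integral_congr fun θ _ => ?_
      show ‖_‖ = _
      rw [norm_mul, norm_exp_neg_mul, one_mul, Complex.norm_real, Real.norm_of_nonneg
        (hre _ (circleMap_mem_ball' h0 h1 θ))]
    rw [h2, integral_re_zero hP h0 h1, norm_mul, norm_mul, norm_pow, Complex.norm_real,
      Complex.norm_real, Real.norm_of_nonneg Real.pi_pos.le, Real.norm_of_nonneg h0.le] at h3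
    have := Real.pi_pos
    nlinarith
  have h4 : Tendsto (fun ρ : ℝ => ‖tcoeff P n‖ * ρ ^ n) (𝓝[<] 1) (𝓝 (‖tcoeff P n‖ * 1 ^ n)) :=
    ((continuous_const.mul (continuous_pow n)).tendsto 1).mono_left nhdsWithin_le_nhds
  rw [one_pow, mul_one] at h4
  refine le_of_tendsto h4 ?_
  filter_upwards [Ioo_mem_nhdsLT (show (0 : ℝ) < 1 by norm_num)] with ρ hρ
  exact key ρ hρ.1 hρ.2

end Pool.Agent.MobConv
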