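import Mathlib
import Pool.Agent.Lib.MP_4b1e7e_an.Strip
import Pool.Agent.Lib.MP_1f4a82_an.Local

/-!
# Normalised convex maps: the inverse function, and Study's inequality `Re (1 + z f''/f') ≥ 0`
-/

set_option autoImplicit false

namespace Pool.Agent.MobConv

open Metric Filter Topology Asymptotics Set

variable {f : ℂ → ℂ}

theorem IsConvexMap.analyticAt (hf : IsConvexMap f) {z : ℂ} (hz : z ∈ ball (0 : ℂ) 1) :
    AnalyticAt ℂ f z :=
  hf.diff.analyticAt (isOpen_ball.mem_nhds hz)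

theorem IsConvexMap.deriv_ne (hf : IsConvexMap f) {z : ℂ} (hz : z ∈ ball (0 : ℂ) 1) :
    deriv f z ≠ 0 :=
  Lib.MP_1f4a82_an.deriv_ne_zero_of_injOn (hf.analyticAt hz) (isOpen_ball.mem_nhds hz) hf.inj

theorem IsConvexMap.zero_mem (hf : IsConvexMap f) : (0 : ℂ) ∈ f '' ball 0 1 :=
  ⟨0, by simp, hf.zero⟩

theorem IsConvexMap.isOpen_image (hf : IsConvexMap f) : IsOpen (f '' ball 0 1) := by
  rw [isOpen_iff_mem_nhds]
  rintro _ ⟨z, hz, rfl⟩
  rw [← Lib.MP_1f4a82_an.map_nhds_of_deriv_ne (hf.analyticAt hz) (hf.deriv_ne hz)]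
  exact image_mem_map (isOpen_ball.mem_nhds hz)

/-- The inverse function. -/
theorem IsConvexMap.exists_inv (hf : IsConvexMap f) :
    ∃ g : ℂ → ℂ, (∀ z ∈ ball (0 : ℂ) 1, g (f z) = z) ∧
      ∀ z ∈ ball (0 : ℂ) 1, HasDerivAt g (deriv f z)⁻¹ (f z) := by
  refine ⟨Function.invFunOn f (ball 0 1), fun z hz => hf.inj.leftInvOn_invFunOn hz, ?_⟩
  intro z hz
  have hmap := Lib.MP_1f4a82_an.map_nhds_of_deriv_ne (hf.analyticAt hz) (hf.deriv_ne hz)
  have hgz : Function.invFunOn f (ball 0 1) (f z) = z := hf.inj.leftInvOn_invFunOn hz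
  have hcont : ContinuousAt (Function.invFunOn f (ball 0 1)) (f z) := by
    unfold ContinuousAt
    rw [hgz, ← hmap, tendsto_map'_iff]
    refine (tendsto_id (x := 𝓝 z)).congr' ?_
    filter_upwards [isOpen_ball.mem_nhds hz] with y hy
    exact (hf.inj.leftInvOn_invFunOn hy).symm
  refine HasDerivAt.of_local_left_inverse (f := f) hcont ?_ (hf.deriv_ne hz) ?_
  · rw [hgz]
    exact (hf.analyticAt hz).differentiableAt.hasDerivAt
  · filter_upwards [hf.isOpen_image.mem_nhds ⟨z, hz, rfl⟩] with y hy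
    exact Function.invFunOn_eq hy

/-- Second order expansion of a function whose first derivative vanishes at the origin. -/
theorem isLittleO_taylor_two {k k1 : ℝ → ℂ} {c : ℂ} (h : ∀ t, HasDerivAt k (k1 t) t)
    (h0 : k1 0 = 0) (h2 : HasDerivAt k1 (2 * c) 0) :
    (fun t : ℝ => k t - k 0 - (t : ℂ) ^ 2 * c) =o[𝓝 0] fun t : ℝ => t ^ 2 := by
  rw [isLittleO_iff]
  intro ε hε
  have h3 := h2.isLittleO
  rw [isLittleO_iff] at h3
  have h4 := h3 hε
  obtain ⟨δ, hδ, hb⟩ := Metric.eventually_nhds_iff_ball.1 h4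
  rw [Metric.eventually_nhds_iff_ball]
  refine ⟨δ, hδ, fun t ht => ?_⟩
  rw [mem_ball_zero_iff] at ht
  have hder : ∀ s ∈ closedBall (0 : ℝ) ‖t‖, HasDerivWithinAt
      (fun s : ℝ => k s - k 0 - (s : ℂ) ^ 2 * c) (k1 s - 2 * (s : ℂ) * c)
      (closedBall (0 : ℝ) ‖t‖) s := by
    intro s _
    have e1 : HasDerivAt (fun s : ℝ => (s : ℂ) ^ 2) (2 * (s : ℂ)) s := by
      have h0 : HasDerivAt (fun s : ℝ => (s : ℂ)) 1 s := Complex.ofRealCLM.hasDerivAt (x := s)
      have := h0.fun_pow 2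
      simpa using this
    exact (((h s).sub_const (k 0)).sub (e1.mul_const c)).hasDerivWithinAt
  have hbd : ∀ s ∈ closedBall (0 : ℝ) ‖t‖, ‖k1 s - 2 * (s : ℂ) * c‖ ≤ ε * ‖t‖ := by
    intro s hs
    rw [mem_closedBall_zero_iff] at hs
    have h5 := hb s (by rw [mem_ball_zero_iff]; exact hs.trans_lt ht)
    rw [h0, sub_zero, sub_zero] at h5
    have h6 : k1 s - 2 * (s : ℂ) * c = k1 s - s • (2 * c) := by
      rw [Complex.real_smul]; ring
    rw [h6]
    exact h5.trans (mul_le_mul_of_nonneg_left hs hε.le)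
  have h7 := (convex_closedBall (0 : ℝ) ‖t‖).norm_image_sub_le_of_norm_hasDerivWithin_le hder hbd
    (mem_closedBall_self (norm_nonneg t)) (y := t) (by rw [mem_closedBall_zero_iff])
  simp only [Complex.ofReal_zero, sub_self, zero_pow two_ne_zero, zero_mul, sub_zero] at h7
  have h7' : ‖k t - k 0 - (t : ℂ) ^ 2 * c‖ ≤ ε * ‖t‖ * ‖t‖ := by
    convert h7 using 2
  calc _ ≤ ε * ‖t‖ * ‖t‖ := h7'
    _ = ε * ‖t ^ 2‖ := by rw [norm_pow]; ring

/-- **Study's inequality** for normalised convex maps. -/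
theorem IsConvexMap.study (hf : IsConvexMap f) {z : ℂ} (hz : z ∈ ball (0 : ℂ) 1) :
    0 ≤ (1 + z * deriv (deriv f) z / deriv f z).re := by
  rcases eq_or_ne z 0 with rfl | hz0
  · simp
  obtain ⟨g, hg1, hg2⟩ := hf.exists_inv
  have hzn : ‖z‖ < 1 := by simpa using hz
  -- rotations
  have hrot : ∀ (t : ℝ) {y : ℂ}, y ∈ ball (0 : ℂ) 1 → y * Complex.exp (t * Complex.I) ∈
      ball (0 : ℂ) 1 := by
    intro t y hy
    rw [mem_ball_zero_iff] at hy ⊢
    rw [norm_mul, Complex.norm_exp_ofReal_mul_I, mul_one]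
    exact hy
  set k : ℝ → ℂ := fun t => (f (z * Complex.exp (t * Complex.I)) +
    f (z * Complex.exp ((-t : ℝ) * Complex.I))) / 2 with hk
  -- Schwarz
  have hS : ∀ t : ℝ, ‖g (k t)‖ ≤ ‖z‖ := by
    intro t
    set H : ℂ → ℂ := fun y => g ((f (y * Complex.exp (t * Complex.I)) +
      f (y * Complex.exp ((-t : ℝ) * Complex.I))) / 2) with hH
    have hmem : ∀ y ∈ ball (0 : ℂ) 1, (f (y * Complex.exp (t * Complex.I)) +
        f (y * Complex.exp ((-t : ℝ) * Complex.I))) / 2 ∈ f '' ball 0 1 := by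
      intro y hy
      have h1 := hf.convex ⟨_, hrot t hy, rfl⟩ ⟨_, hrot (-t) hy, rfl⟩
        (show (0 : ℝ) ≤ 1 / 2 by norm_num) (show (0 : ℝ) ≤ 1 / 2 by norm_num) (by norm_num)
      convert h1 using 1
      simp only [Complex.real_smul]
      push_cast
      ring
    have hd : DifferentiableOn ℂ H (ball 0 1) := by
      intro y hy
      obtain ⟨x, hx, hxe⟩ := hmem y hy
      have h1 : HasDerivAt g (deriv f x)⁻¹ ((f (y * Complex.exp (t * Complex.I)) +
        f (y * Complex.exp ((-t : ℝ) * Complex.I))) / 2) := hxe ▸ hg2 x hx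
      have h2 : ∀ s : ℝ, DifferentiableAt ℂ (fun y : ℂ => f (y * Complex.exp (s * Complex.I))) y :=
        fun s => DifferentiableAt.comp (g := f) y (hf.analyticAt (hrot s hy)).differentiableAt
          (by fun_prop)
      exact (DifferentiableAt.comp (g := g) y h1.differentiableAt
        (((h2 t).add (h2 (-t))).div_const 2)).differentiableWithinAt
    have hm : MapsTo H (ball 0 1) (ball 0 1) := by
      intro y hy
      obtain ⟨x, hx, hxe⟩ := hmem y hy
      show g _ ∈ _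
      rw [← hxe, hg1 x hx]
      exact hx
    have h0 : H 0 = 0 := by
      show g _ = 0
      rw [zero_mul, zero_mul, hf.zero, add_zero, zero_div]
      have := hg1 0 (by simp)
      rwa [hf.zero] at this
    exact Complex.norm_le_norm_of_mapsTo_ball hd (hm.mono_right ball_subset_closedBall) h0 hzn
  -- derivatives of `k`
  set F1 : ℂ → ℂ := deriv f with hF1
  have hF1a : AnalyticAt ℂ F1 z := (hf.analyticAt hz).deriv
  have hE : ∀ t : ℝ, HasDerivAt (fun t : ℝ => z * Complex.exp (t * Complex.I))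
      (z * Complex.exp (t * Complex.I) * Complex.I) t := by
    intro t
    have h1 : HasDerivAt (fun t : ℝ => (t : ℂ) * Complex.I) (1 * Complex.I) t :=
      (Complex.ofRealCLM.hasDerivAt (x := t)).mul_const Complex.I
    have h2 := (h1.cexp).const_mul z
    simpa [mul_assoc] using h2
  have hE' : ∀ t : ℝ, HasDerivAt (fun t : ℝ => z * Complex.exp ((-t : ℝ) * Complex.I))
      (-(z * Complex.exp ((-t : ℝ) * Complex.I) * Complex.I)) t := by
    intro t
    have h1 := (hE (-t)).scomp t (hasDerivAt_neg t)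
    simpa [Function.comp_def] using h1
  set k1 : ℝ → ℂ := fun t => (F1 (z * Complex.exp (t * Complex.I)) *
      (z * Complex.exp (t * Complex.I) * Complex.I) +
    F1 (z * Complex.exp ((-t : ℝ) * Complex.I)) *
      (-(z * Complex.exp ((-t : ℝ) * Complex.I) * Complex.I))) / 2 with hk1
  have hkd : ∀ t, HasDerivAt k (k1 t) t := by
    intro t
    have h1 : HasDerivAt (fun t : ℝ => f (z * Complex.exp (t * Complex.I))) _ t :=
      HasDerivAt.comp t (hf.analyticAt (hrot t hz)).differentiableAt.hasDerivAt (hE t)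
    have h2 : HasDerivAt (fun t : ℝ => f (z * Complex.exp ((-t : ℝ) * Complex.I))) _ t :=
      HasDerivAt.comp t (hf.analyticAt (hrot (-t) hz)).differentiableAt.hasDerivAt (hE' t)
    exact (h1.add h2).div_const 2
  have hk10 : k1 0 = 0 := by
    simp [hk1]
  have hk2 : HasDerivAt k1 (2 * (-(z * (z * deriv F1 z + F1 z)) / 2)) 0 := by
    have e0 : z * Complex.exp (((0 : ℝ) : ℂ) * Complex.I) = z := by simp
    have e0' : z * Complex.exp (((-(0 : ℝ) : ℝ) : ℂ) * Complex.I) = z := by simp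
    have hFd : HasDerivAt F1 (deriv F1 z) z := hF1a.differentiableAt.hasDerivAt
    have h1 : HasDerivAt (fun t : ℝ => F1 (z * Complex.exp (t * Complex.I)))
        (deriv F1 z * (z * Complex.exp ((0 : ℝ) * Complex.I) * Complex.I)) 0 :=
      HasDerivAt.comp (h₂ := F1) (h := fun t : ℝ => z * Complex.exp (t * Complex.I)) (0 : ℝ)
        (by rw [e0]; exact hFd) (hE 0)
    have h2 : HasDerivAt (fun t : ℝ => F1 (z * Complex.exp ((-t : ℝ) * Complex.I)))
        (deriv F1 z * (-(z * Complex.exp ((-(0 : ℝ) : ℝ) * Complex.I) * Complex.I))) 0 :=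
      HasDerivAt.comp (h₂ := F1) (h := fun t : ℝ => z * Complex.exp ((-t : ℝ) * Complex.I))
        (0 : ℝ) (by rw [e0']; exact hFd) (hE' 0)
    have h3 := h1.mul ((hE 0).mul_const Complex.I)
    have h4 := h2.mul ((hE' 0).mul_const Complex.I).neg
    have h5 := (h3.add h4).div_const 2
    have h6 : HasDerivAt k1 _ 0 := h5
    refine h6.congr_deriv ?_
    simp only [Pi.neg_apply, e0, e0']
    linear_combination (deriv F1 z * z * z + F1 z * z) * Complex.I_sq
  have hT := isLittleO_taylor_two hkd hk10 hk2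
  have hk0 : k 0 = f z := by simp [hk]
  rw [hk0] at hT
  set c : ℂ := -(z * (z * deriv F1 z + F1 z)) / 2 with hc
  -- expansion of `g`
  have hgd := (hg2 z hz).isLittleO
  rw [hg1 z hz] at hgd
  have hkcont : Tendsto k (𝓝 0) (𝓝 (f z)) := by
    have := (hkd 0).continuousAt
    unfold ContinuousAt at this
    rwa [hk0] at this
  have hg' := hgd.comp_tendsto hkcont
  have hkO : (fun t : ℝ => k t - f z) =O[𝓝 0] fun t : ℝ => t ^ 2 := by
    have h1 : (fun t : ℝ => (t : ℂ) ^ 2 * c) =O[𝓝 0] fun t : ℝ => t ^ 2 := by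
      refine IsBigO.of_bound ‖c‖ (Eventually.of_forall fun t => ?_)
      rw [norm_mul, norm_pow, Complex.norm_real, norm_pow, mul_comm]
    have h2 := hT.isBigO.add h1
    refine h2.congr_left fun t => ?_
    ring
  have hg'' : (fun t : ℝ => g (k t) - z - (k t - f z) * (deriv f z)⁻¹) =o[𝓝 0]
      fun t : ℝ => t ^ 2 := by
    refine IsLittleO.trans_isBigO ?_ hkO
    simpa [Function.comp_def] using hg'
  have hfinal : (fun t : ℝ => g (k t) - z - (t : ℂ) ^ 2 * (c / deriv f z)) =o[𝓝 0]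
      fun t : ℝ => t ^ 2 := by
    have h1 : (fun t : ℝ => (k t - f z - (t : ℂ) ^ 2 * c) * (deriv f z)⁻¹) =o[𝓝 0]
        fun t : ℝ => t ^ 2 := by
      have := hT.const_mul_left ((deriv f z)⁻¹)
      refine this.congr_left fun t => ?_
      ring
    refine (hg''.add h1).congr_left fun t => ?_
    ring
  -- conclusion
  by_contra hneg
  push Not at hneg
  set q : ℝ := (1 + z * deriv (deriv f) z / deriv f z).re with hq
  have hzpos : 0 < ‖z‖ := norm_pos_iff.2 hz0
  have hcq : ((starRingEnd ℂ) z * (c / deriv f z)).re = -(‖z‖ ^ 2 * q) / 2 := by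
    have hne := hf.deriv_ne hz
    have h1 : (starRingEnd ℂ) z * (c / deriv f z) =
        ((-(‖z‖ ^ 2) / 2 : ℝ) : ℂ) * (1 + z * deriv (deriv f) z / deriv f z) := by
      have h2 : (starRingEnd ℂ) z * z = ((‖z‖ ^ 2 : ℝ) : ℂ) := by
        rw [Complex.conj_mul']; push_cast; rfl
      rw [hc, hF1]
      push_cast at h2 ⊢
      field_simp
      linear_combination (-(z * deriv (deriv f) z + deriv f z)) * h2
    rw [h1, Complex.re_ofReal_mul, ← hq]
    ring
  -- choose epsilon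
  have hε : 0 < -q * ‖z‖ / 4 := by
    have := mul_pos (neg_pos.2 hneg) hzpos
    linarith
  have hev := (isLittleO_iff.1 hfinal) hε
  obtain ⟨δ, hδ, hb⟩ := Metric.eventually_nhds_iff_ball.1 hev
  -- take a small positive `t`
  set t : ℝ := δ / 2 with ht
  have htpos : 0 < t := by positivity
  have hbt := hb t (by
    rw [mem_ball_zero_iff, Real.norm_of_nonneg htpos.le]
    linarith)
  set R : ℂ := g (k t) - z - (t : ℂ) ^ 2 * (c / deriv f z) with hR
  have hRn : ‖R‖ ≤ -q * ‖z‖ / 4 * t ^ 2 := by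
    rwa [norm_pow, Real.norm_of_nonneg htpos.le] at hbt
  have h1 : g (k t) = z + (t : ℂ) ^ 2 * (c / deriv f z) + R := by rw [hR]; ring
  have h2 : ((starRingEnd ℂ) z * g (k t)).re ≤ ‖z‖ ^ 2 := by
    calc ((starRingEnd ℂ) z * g (k t)).re ≤ ‖(starRingEnd ℂ) z * g (k t)‖ := Complex.re_le_norm _
      _ = ‖z‖ * ‖g (k t)‖ := by rw [norm_mul, RCLike.norm_conj]
      _ ≤ ‖z‖ * ‖z‖ := mul_le_mul_of_nonneg_left (hS t) (norm_nonneg _)
      _ = ‖z‖ ^ 2 := by ring
  have h3 : ((starRingEnd ℂ) z * g (k t)).re = ‖z‖ ^ 2 + t ^ 2 * (-(‖z‖ ^ 2 * q) / 2) +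
      ((starRingEnd ℂ) z * R).re := by
    rw [h1, mul_add, mul_add, Complex.add_re, Complex.add_re]
    congr 2
    · rw [Complex.conj_mul']
      norm_cast
    · rw [← hcq, ← Complex.re_ofReal_mul]
      congr 1
      push_cast
      ring
  have h4 : -(‖z‖ * (-q * ‖z‖ / 4 * t ^ 2)) ≤ ((starRingEnd ℂ) z * R).re := by
    have h5 : |((starRingEnd ℂ) z * R).re| ≤ ‖z‖ * ‖R‖ := by
      calc _ ≤ ‖(starRingEnd ℂ) z * R‖ := Complex.abs_re_le_norm _
        _ = ‖z‖ * ‖R‖ := by rw [norm_mul, RCLike.norm_conj]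
    have h6 := mul_le_mul_of_nonneg_left hRn (norm_nonneg z)
    have h7 := neg_abs_le ((starRingEnd ℂ) z * R).re
    linarith
  have h8 : 0 < -q * (‖z‖ ^ 2 * t ^ 2) := by
    have := mul_pos (neg_pos.2 hneg) (mul_pos (pow_pos hzpos 2) (pow_pos htpos 2))
    linarith
  nlinarith

end Pool.Agent.MobConv
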