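import Mathlib
import Pool.Agent.Lib.MP_4b1e7e_an.Asy.Study
import Pool.Agent.Lib.MP_4b1e7e_an.Asy.Fou

/-!
# The coefficients of a normalised convex map are bounded by one
-/

set_option autoImplicit false

namespace Pool.Agent.MobConv

open Metric Filter Topology Set MeasureTheory Finset

variable {f : ℂ → ℂ}

theorem tcoeff_id (n : ℕ) : tcoeff (fun z : ℂ => z) n = if n = 1 then 1 else 0 := by
  rcases n with _ | n
  · simp [tcoeff_zero]
  · rw [tcoeff_succ]
    have h1 : deriv (fun z : ℂ => z) = fun _ => 1 := by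
      ext z
      exact deriv_id z
    rw [h1]
    rcases n with _ | n
    · simp [tcoeff_zero]
    · rw [tcoeff_const_succ]
      simp

theorem tcoeff_z_deriv {F : ℂ → ℂ} (hF : AnalyticAt ℂ F 0) (n : ℕ) :
    tcoeff (fun z => z * deriv F z) n = n * tcoeff F n := by
  rcases n with _ | n
  · simp [tcoeff_zero]
  · have hid : AnalyticAt ℂ (fun z : ℂ => z) 0 := analyticAt_id
    rw [tcoeff_mul hid hF.deriv, sum_eq_single 1]
    · have h1 := tcoeff_id 1
      rw [if_pos rfl] at h1
      rw [h1, one_mul, Nat.add_sub_cancel, tcoeff_succ]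
      have : ((n : ℂ) + 1) ≠ 0 := by exact_mod_cast Nat.succ_ne_zero n
      push_cast
      field_simp
    · intro i _ hi
      have h1 := tcoeff_id i
      rw [if_neg hi] at h1
      rw [h1, zero_mul]
    · intro h
      exact absurd (Finset.mem_range.2 (by omega)) h

/-- `Q = 1 + z f''/f'` for a convex map. -/
theorem IsConvexMap.diff_Q (hf : IsConvexMap f) :
    DifferentiableOn ℂ (fun z => 1 + z * deriv (deriv f) z / deriv f z) (ball 0 1) := by
  intro z hz
  have h1 := (hf.analyticAt hz).deriv.differentiableAt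
  have h2 := (hf.analyticAt hz).deriv.deriv.differentiableAt
  have h3 := hf.deriv_ne hz
  exact (((differentiableAt_id.mul h2).div h1 h3).const_add 1).differentiableWithinAt

theorem IsConvexMap.coeff_le (hf : IsConvexMap f) : ∀ n : ℕ, 1 ≤ n → ‖tcoeff f n‖ ≤ 1 := by
  set Q : ℂ → ℂ := fun z => 1 + z * deriv (deriv f) z / deriv f z with hQ
  have hQd : DifferentiableOn ℂ Q (ball 0 1) := hf.diff_Q
  have hQre : ∀ z ∈ ball (0 : ℂ) 1, 0 ≤ (Q z).re := fun z hz => hf.study hz
  have hQ0 : Q 0 = 1 := by simp [hQ]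
  have hQc : ∀ n, 1 ≤ n → ‖tcoeff Q n‖ ≤ 2 := by
    intro n hn
    have := caratheodory hQd hQre hn
    rw [hQ0] at this
    simpa using this
  have hfa : AnalyticAt ℂ f 0 := hf.analyticAt (by simp)
  have hQa : AnalyticAt ℂ Q 0 := analyticAt_of_diff hQd
  have hrec : ∀ n : ℕ, (n : ℂ) * tcoeff (deriv f) n = ∑ i ∈ range (n + 1),
      tcoeff Q i * tcoeff (deriv f) (n - i) - tcoeff (deriv f) n := by
    intro n
    rw [← tcoeff_z_deriv hfa.deriv, ← tcoeff_mul hQa hfa.deriv]
    have h1 : ∀ z ∈ ball (0 : ℂ) 1, Q z * deriv f z = z * deriv (deriv f) z + deriv f z := by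
      intro z hz
      have h3 := hf.deriv_ne hz
      rw [hQ]
      field_simp
      ring
    rw [tcoeff_congr h1]
    have h4 : tcoeff (fun z => z * deriv (deriv f) z + deriv f z) n =
        tcoeff (fun z => z * deriv (deriv f) z) n + tcoeff (deriv f) n := by
      have hid : AnalyticAt ℂ (fun z : ℂ => z * deriv (deriv f) z) 0 :=
        analyticAt_id.mul hfa.deriv.deriv
      unfold tcoeff
      rw [iteratedDeriv_fun_add hid.contDiffAt hfa.deriv.contDiffAt]
      ring
    rw [h4]
    ring
  have hrec' : ∀ n : ℕ, (n : ℂ) * tcoeff (deriv f) n = ∑ i ∈ range n,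
      tcoeff Q (i + 1) * tcoeff (deriv f) (n - (i + 1)) := by
    intro n
    rw [hrec, sum_range_succ', Nat.sub_zero, tcoeff_zero, hQ0]
    ring
  -- coefficients of the derivative
  have hd : ∀ n : ℕ, ‖tcoeff (deriv f) n‖ ≤ n + 1 := by
    intro n
    induction n using Nat.strong_induction_on with
    | _ n ih =>
      rcases Nat.eq_zero_or_pos n with rfl | hn
      · rw [tcoeff_zero, hf.deriv_one]
        simp
      · have h1 : (n : ℝ) * ‖tcoeff (deriv f) n‖ ≤ ∑ i ∈ range n, 2 * ((n - (i + 1) : ℕ) + 1 : ℝ) := by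
          rw [← Complex.norm_natCast (n := n), ← norm_mul, hrec' n]
          refine (norm_sum_le _ _).trans (sum_le_sum fun i hi => ?_)
          rw [norm_mul]
          have hi' := Finset.mem_range.1 hi
          exact mul_le_mul (hQc (i + 1) (by omega)) (ih _ (by omega)) (norm_nonneg _) (by norm_num)
        have h2 : ∀ m : ℕ, ∑ i ∈ range m, 2 * ((m - (i + 1) : ℕ) + 1 : ℝ) = m * (m + 1) := by
          intro m
          rw [← sum_range_reflect]
          have h3 : ∀ i ∈ range m, 2 * ((m - (m - 1 - i + 1) : ℕ) + 1 : ℝ) = 2 * ((i : ℝ) + 1) := by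
            intro i hi
            have hi' := Finset.mem_range.1 hi
            have : m - (m - 1 - i + 1) = i := by omega
            rw [this]
          rw [sum_congr rfl h3]
          clear h3
          induction m with
          | zero => simp
          | succ m ihm =>
            rw [sum_range_succ, ihm]
            push_cast
            ring
        rw [h2] at h1
        have hn' : (0 : ℝ) < n := by exact_mod_cast hn
        exact le_of_mul_le_mul_left h1 hn'
  intro n hn
  obtain ⟨m, rfl⟩ : ∃ m, n = m + 1 := ⟨n - 1, by omega⟩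
  rw [tcoeff_succ, norm_div]
  have h5 : ‖(m : ℂ) + 1‖ = m + 1 := by
    have : (m : ℂ) + 1 = ((m + 1 : ℕ) : ℂ) := by push_cast; ring
    rw [this, Complex.norm_natCast]
    push_cast
    ring
  rw [h5, div_le_one (by positivity)]
  exact hd m

end Pool.Agent.MobConv
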