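import Mathlib

/-!
# Two integrals over a segment, and a swap of integrals
-/

set_option autoImplicit false

namespace Pool.Agent.MobConv

open Metric Filter Topology Set MeasureTheory

variable {a b t ρ : ℝ}

theorem quad_pos (hab : a ^ 2 + b ^ 2 = ρ ^ 2) {s : ℝ} (hs : 0 ≤ s) (hsρ : s < ρ) :
    0 < (a - s) ^ 2 + b ^ 2 := by
  have hρ : 0 < ρ := hs.trans_lt hsρ
  have h1 : a ≤ ρ := by nlinarith [sq_nonneg b, sq_nonneg (a - ρ)]
  nlinarith [mul_nonneg hs (sub_nonneg.2 h1), mul_pos (sub_pos.2 hsρ) (sub_pos.2 hsρ)]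

theorem kernel_log (hab : a ^ 2 + b ^ 2 = ρ ^ 2) (ht : 0 < t) (htρ : t < ρ) :
    ∫ s in (0 : ℝ)..t, 2 * (a - s) / ((a - s) ^ 2 + b ^ 2) =
      Real.log (ρ ^ 2) - Real.log ((a - t) ^ 2 + b ^ 2) := by
  have hpos : ∀ s ∈ Icc 0 t, 0 < (a - s) ^ 2 + b ^ 2 := fun s hs =>
    quad_pos hab hs.1 (hs.2.trans_lt htρ)
  have hd : ∀ s ∈ uIcc 0 t, HasDerivAt (fun s => -Real.log ((a - s) ^ 2 + b ^ 2))
      (2 * (a - s) / ((a - s) ^ 2 + b ^ 2)) s := by
    intro s hs
    rw [uIcc_of_le ht.le] at hs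
    have h1 : HasDerivAt (fun s : ℝ => (a - s) ^ 2 + b ^ 2) (2 * (a - s) * (-1)) s := by
      have := (((hasDerivAt_id s).const_sub a).fun_pow 2).add_const (b ^ 2)
      simpa using this
    have h2 := (h1.log (hpos s hs).ne').neg
    refine h2.congr_deriv ?_
    ring
  rw [intervalIntegral.integral_eq_sub_of_hasDerivAt hd]
  · rw [← hab]
    ring_nf
  · apply ContinuousOn.intervalIntegrable
    rw [uIcc_of_le ht.le]
    refine ContinuousOn.div (by fun_prop) (by fun_prop) fun s hs => (hpos s hs).ne'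

private theorem kernel_int_pos (hb : 0 < b) (hab : a ^ 2 + b ^ 2 = ρ ^ 2) (ht : 0 < t)
    (htρ : t < ρ) : ρ * Real.sqrt ((a - t) ^ 2 + b ^ 2) *
      ∫ s in (0 : ℝ)..t, 1 / ((a - s) ^ 2 + b ^ 2) ≤ Real.pi / 2 * t := by
  have hρ : 0 < ρ := ht.trans htρ
  have hpos : ∀ s : ℝ, 0 < (a - s) ^ 2 + b ^ 2 := fun s => by positivity
  have hd : ∀ s ∈ uIcc 0 t, HasDerivAt (fun s => Real.arctan ((s - a) / b) / b)
      (1 / ((a - s) ^ 2 + b ^ 2)) s := by
    intro s _
    have h1 : HasDerivAt (fun s : ℝ => (s - a) / b) (1 / b) s :=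
      ((hasDerivAt_id s).sub_const a).div_const b
    have h2 := (h1.arctan).div_const b
    refine h2.congr_deriv ?_
    have := hpos s
    field_simp
    ring
  have hint : ∫ s in (0 : ℝ)..t, 1 / ((a - s) ^ 2 + b ^ 2) =
      (Real.arctan ((t - a) / b) + Real.arctan (a / b)) / b := by
    rw [intervalIntegral.integral_eq_sub_of_hasDerivAt hd]
    · rw [zero_sub, neg_div, Real.arctan_neg]
      ring
    · apply Continuous.intervalIntegrable
      refine Continuous.div (by fun_prop) (by fun_prop) fun s => (hpos s).ne'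
  have haρ : a ≤ ρ := by nlinarith [sq_nonneg b, sq_nonneg (a - ρ)]
  have hA : 0 < ρ ^ 2 - t * a := by nlinarith
  have hlt : (t - a) / b * (a / b) < 1 := by
    rw [div_mul_div_comm, div_lt_one (by positivity)]
    nlinarith
  have hadd := Real.arctan_add hlt
  have hu : ((t - a) / b + a / b) / (1 - (t - a) / b * (a / b)) = t * b / (ρ ^ 2 - t * a) := by
    have h1 : 1 - (t - a) / b * (a / b) = (ρ ^ 2 - t * a) / b ^ 2 := by
      field_simp
      rw [← hab]
      ring
    rw [h1]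
    field_simp
    ring
  rw [hu] at hadd
  set u : ℝ := t * b / (ρ ^ 2 - t * a) with hudef
  have hu0 : 0 < u := by positivity
  -- the sine
  have hsq : (ρ ^ 2 - t * a) ^ 2 + (t * b) ^ 2 = ρ ^ 2 * ((a - t) ^ 2 + b ^ 2) := by
    have h1 : ρ ^ 2 = a ^ 2 + b ^ 2 := hab.symm
    rw [h1]
    ring
  have hsqrt : Real.sqrt (1 + u ^ 2) = ρ * Real.sqrt ((a - t) ^ 2 + b ^ 2) / (ρ ^ 2 - t * a) := by
    have h1 : 1 + u ^ 2 = (ρ * Real.sqrt ((a - t) ^ 2 + b ^ 2) / (ρ ^ 2 - t * a)) ^ 2 := by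
      have h2 : (ρ * Real.sqrt ((a - t) ^ 2 + b ^ 2) / (ρ ^ 2 - t * a)) ^ 2 =
          ρ ^ 2 * ((a - t) ^ 2 + b ^ 2) / (ρ ^ 2 - t * a) ^ 2 := by
        rw [div_pow, mul_pow, Real.sq_sqrt (hpos t).le]
      have h3 : u ^ 2 = (t * b) ^ 2 / (ρ ^ 2 - t * a) ^ 2 := by rw [hudef, div_pow]
      rw [h2, h3, ← hsq, add_div, div_self (pow_ne_zero 2 hA.ne')]
    rw [h1, Real.sqrt_sq (by positivity)]
  have hsin : Real.sin (Real.arctan u) = t * b / (ρ * Real.sqrt ((a - t) ^ 2 + b ^ 2)) := by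
    rw [Real.sin_arctan, hsqrt, hudef]
    have := Real.sqrt_pos.2 (hpos t)
    field_simp
  have hle : 2 / Real.pi * Real.arctan u ≤ Real.sin (Real.arctan u) :=
    Real.mul_le_sin (Real.arctan_nonneg.2 hu0.le) (Real.arctan_lt_pi_div_two u).le
  rw [hsin] at hle
  rw [hint, hadd]
  have hR := Real.sqrt_pos.2 (hpos t)
  set R := Real.sqrt ((a - t) ^ 2 + b ^ 2)
  have hπ := Real.pi_pos
  rw [le_div_iff₀ (by positivity)] at hle
  have h3 : 2 / Real.pi * Real.arctan u * (ρ * R) * (Real.pi / 2) ≤ t * b * (Real.pi / 2) :=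
    mul_le_mul_of_nonneg_right hle (by positivity)
  have h4 : 2 / Real.pi * Real.arctan u * (ρ * R) * (Real.pi / 2) = ρ * R * Real.arctan u := by
    field_simp
  rw [h4] at h3
  rw [mul_div_assoc', div_le_iff₀ hb]
  linarith

/-- The kernel inequality. -/
theorem kernel_int (hab : a ^ 2 + b ^ 2 = ρ ^ 2) (ht : 0 < t) (htρ : t < ρ) :
    ρ * Real.sqrt ((a - t) ^ 2 + b ^ 2) *
      ∫ s in (0 : ℝ)..t, 1 / ((a - s) ^ 2 + b ^ 2) ≤ Real.pi / 2 * t := by
  have hρ : 0 < ρ := ht.trans htρ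
  rcases lt_trichotomy b 0 with hb | hb | hb
  · have := kernel_int_pos (a := a) (b := -b) (ρ := ρ) (neg_pos.2 hb)
      (by rw [neg_sq]; exact hab) ht htρ
    simpa only [neg_sq] using this
  · subst hb
    have ha2 : a ^ 2 = ρ ^ 2 := by linarith
    have haρ : a ≤ ρ := by nlinarith
    have hpos : ∀ s ∈ Icc 0 t, 0 < a * (a - s) := by
      intro s hs
      have := hs.1
      have := hs.2
      nlinarith
    have hd : ∀ s ∈ uIcc 0 t, HasDerivAt (fun s => 1 / (a - s)) (1 / ((a - s) ^ 2 + 0 ^ 2)) s := by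
      intro s hs
      rw [uIcc_of_le ht.le] at hs
      have hne : a - s ≠ 0 := by
        intro h
        have := hpos s hs
        rw [h] at this
        simp at this
      have h1 : HasDerivAt (fun s : ℝ => a - s) (-1) s := (hasDerivAt_id s).const_sub a
      have h2 := h1.inv hne
      simp only [one_div]
      refine h2.congr_deriv ?_
      field_simp
      ring
    have hne : a - t ≠ 0 := by
      intro h
      have := hpos t ⟨ht.le, le_rfl⟩
      rw [h] at this
      simp at this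
    have hane : a ≠ 0 := by
      rintro rfl
      have := hpos 0 ⟨le_rfl, ht.le⟩
      simp at this
    have hint : ∫ s in (0 : ℝ)..t, 1 / ((a - s) ^ 2 + 0 ^ 2) = t / (a * (a - t)) := by
      rw [intervalIntegral.integral_eq_sub_of_hasDerivAt hd]
      · rw [sub_zero]
        field_simp
        ring
      · apply ContinuousOn.intervalIntegrable
        rw [uIcc_of_le ht.le]
        refine ContinuousOn.div (by fun_prop) (by fun_prop) fun s hs => ?_
        have hne' : a - s ≠ 0 := by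
          intro h
          have := hpos s hs
          rw [h] at this
          simp at this
        positivity
    rw [hint]
    have h1 : ρ * Real.sqrt ((a - t) ^ 2 + 0 ^ 2) = a * (a - t) := by
      have h2 : (a - t) ^ 2 + 0 ^ 2 = (a - t) ^ 2 := by ring
      have h3 : ρ = |a| := by
        rw [← Real.sqrt_sq_eq_abs, ha2, Real.sqrt_sq hρ.le]
      rw [h2, Real.sqrt_sq_eq_abs, h3, ← abs_mul, abs_of_pos (hpos t ⟨ht.le, le_rfl⟩)]
    rw [h1]
    have h4 : a * (a - t) * (t / (a * (a - t))) = t := by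
      field_simp
    rw [h4]
    have := Real.pi_gt_three
    nlinarith
  · exact kernel_int_pos hb hab ht htρ

/-- Swap of two integrals of a continuous function. -/
theorem swap_cont {g : ℝ → ℝ → ℝ} {t T : ℝ} (ht : 0 ≤ t) (hT : 0 ≤ T)
    (hg : ContinuousOn (Function.uncurry g) (Icc 0 t ×ˢ Icc 0 T)) :
    ∫ s in (0 : ℝ)..t, ∫ θ in (0 : ℝ)..T, g s θ = ∫ θ in (0 : ℝ)..T, ∫ s in (0 : ℝ)..t, g s θ := by
  apply intervalIntegral_intervalIntegral_swap
  rw [uIoc_of_le ht, uIoc_of_le hT]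
  have h1 : IntegrableOn (Function.uncurry g) (Icc 0 t ×ˢ Icc 0 T) (volume.prod volume) :=
    hg.integrableOn_compact (isCompact_Icc.prod isCompact_Icc)
  exact h1.mono_set (prod_mono Ioc_subset_Icc_self Ioc_subset_Icc_self)

theorem flip_contOn {g : ℝ → ℝ → ℝ} {U V : Set ℝ}
    (hg : ContinuousOn (Function.uncurry g) (U ×ˢ V)) :
    ContinuousOn (Function.uncurry fun θ s => g s θ) (V ×ˢ U) := by
  have hm : MapsTo Prod.swap (V ×ˢ U) (U ×ˢ V) := fun p hp => ⟨hp.2, hp.1⟩
  exact hg.comp continuous_swap.continuousOn hm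

/-- Integrability of a partial integral of a continuous function. -/
theorem inner_integrable {g : ℝ → ℝ → ℝ} {t T : ℝ} (ht : 0 ≤ t) (hT : 0 ≤ T)
    (hg : ContinuousOn (Function.uncurry g) (Icc 0 t ×ˢ Icc 0 T)) :
    IntervalIntegrable (fun s => ∫ θ in (0 : ℝ)..T, g s θ) volume 0 t := by
  have h1 : IntegrableOn (Function.uncurry g) (Icc 0 t ×ˢ Icc 0 T) (volume.prod volume) :=
    hg.integrableOn_compact (isCompact_Icc.prod isCompact_Icc)
  have h2 : IntegrableOn (Function.uncurry g) (Ioc 0 t ×ˢ Ioc 0 T) (volume.prod volume) :=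
    h1.mono_set (prod_mono Ioc_subset_Icc_self Ioc_subset_Icc_self)
  rw [IntegrableOn, ← Measure.prod_restrict] at h2
  have h3 := h2.integral_prod_left
  rw [intervalIntegrable_iff_integrableOn_Ioc_of_le ht]
  simp only [intervalIntegral.integral_of_le hT]
  exact h3

end Pool.Agent.MobConv
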