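import Mathlib
import Pool.Agent.Lib.MP_4b1e7e_an.Asy.Coef1
import Pool.Agent.Lib.MP_4b1e7e_an.Asy.Kern

/-!
# Distortion of normalised convex maps

`|f'(z)| ≥ 1/4` and `|f(z)|^2 ≤ (π^2/4) |z|^2 |f'(z)|`.
-/

set_option autoImplicit false

namespace Pool.Agent.MobConv

open Metric Filter Topology Set MeasureTheory

variable {f : ℂ → ℂ}

/-- squared distance of a point of the circle to a real number -/
noncomputable def NN (ρ θ s : ℝ) : ℝ := ((circleMap 0 ρ θ).re - s) ^ 2 + (circleMap 0 ρ θ).im ^ 2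

theorem circle_sq (ρ θ : ℝ) : (circleMap 0 ρ θ).re ^ 2 + (circleMap 0 ρ θ).im ^ 2 = ρ ^ 2 := by
  have h1 := Complex.normSq_eq_norm_sq (circleMap 0 ρ θ)
  rw [norm_circleMap_zero, sq_abs, Complex.normSq_apply] at h1
  linarith

theorem NN_pos {ρ θ s : ℝ} (hs : 0 ≤ s) (hsρ : s < ρ) : 0 < NN ρ θ s :=
  quad_pos (circle_sq ρ θ) hs hsρ

theorem NN_zero (ρ θ : ℝ) : NN ρ θ 0 = ρ ^ 2 := by
  rw [NN, sub_zero, circle_sq]

theorem NN_le {ρ θ s : ℝ} (hs : 0 ≤ s) (hsρ : s < ρ) (hρ : ρ < 1) : NN ρ θ s ≤ 4 := by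
  have h1 := circle_sq ρ θ
  have h2 : -ρ ≤ (circleMap 0 ρ θ).re := by
    have h3 := Complex.abs_re_le_norm (circleMap 0 ρ θ)
    rw [norm_circleMap_zero, abs_of_pos (hs.trans_lt hsρ)] at h3
    exact (abs_le.1 h3).1
  unfold NN
  nlinarith

theorem NN_cont (ρ : ℝ) : Continuous fun p : ℝ × ℝ => NN ρ p.2 p.1 := by
  unfold NN
  have h1 : Continuous fun p : ℝ × ℝ => circleMap 0 ρ p.2 := by fun_prop
  exact (((Complex.continuous_re.comp h1).sub continuous_fst).pow 2).add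
    ((Complex.continuous_im.comp h1).pow 2)

theorem NN_cont2 (ρ s : ℝ) : Continuous fun θ : ℝ => NN ρ θ s := by
  unfold NN
  have h1 : Continuous fun θ : ℝ => circleMap 0 ρ θ := by fun_prop
  exact (((Complex.continuous_re.comp h1).sub continuous_const).pow 2).add
    ((Complex.continuous_im.comp h1).pow 2)

theorem norm_sub_sq (ρ θ s : ℝ) : ‖circleMap 0 ρ θ - (s : ℂ)‖ ^ 2 = NN ρ θ s := by
  rw [← Complex.normSq_eq_norm_sq, Complex.normSq_apply, NN]
  simp
  ring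

/-- the density -/
noncomputable def uu (f : ℂ → ℂ) (ρ θ : ℝ) : ℝ :=
  (1 + circleMap 0 ρ θ * deriv (deriv f) (circleMap 0 ρ θ) / deriv f (circleMap 0 ρ θ)).re

section

variable (hf : IsConvexMap f) {ρ : ℝ} (h0 : 0 < ρ) (h1 : ρ < 1)

include hf h0 h1

theorem uu_nonneg (θ : ℝ) : 0 ≤ uu f ρ θ := hf.study (circleMap_mem_ball' h0 h1 θ)

theorem uu_cont : Continuous (uu f ρ) :=
  Complex.continuous_re.comp (continuous_circle hf.diff_Q h0 h1)

theorem uu_int : ∫ θ in (0 : ℝ)..2 * Real.pi, uu f ρ θ = 2 * Real.pi := by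
  have := integral_re_zero hf.diff_Q h0 h1
  simp only [zero_mul, zero_div, add_zero, Complex.one_re, mul_one] at this
  exact this

omit hf h0 h1 in
theorem poissonKernel_NN (s θ : ℝ) :
    poissonKernel 0 (s : ℂ) (circleMap 0 ρ θ) = (ρ ^ 2 - s ^ 2) / NN ρ θ s := by
  rw [poissonKernel_def, sub_zero, sub_zero, norm_sub_sq, norm_circleMap_zero,
    Complex.norm_real, Real.norm_eq_abs, sq_abs, sq_abs]

theorem poisson_re {s : ℝ} (hs : 0 < s) (hsρ : s < ρ) :
    (2 * Real.pi)⁻¹ * ∫ θ in (0 : ℝ)..2 * Real.pi, (ρ ^ 2 - s ^ 2) / NN ρ θ s * uu f ρ θ =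
      (1 + (s : ℂ) * deriv (deriv f) s / deriv f s).re := by
  have hsn : ‖(s : ℂ)‖ < ρ := by rw [Complex.norm_real, Real.norm_of_nonneg hs.le]; exact hsρ
  have h2 := (diffCont_ball hf.diff_Q h1).circleAverage_poissonKernel_smul (w := (s : ℂ))
    (by rw [mem_ball_zero_iff]; exact hsn)
  have hc := continuous_circle hf.diff_Q h0 h1
  have hNc : Continuous fun θ : ℝ => NN ρ θ s := NN_cont2 ρ s
  have hPc : Continuous fun θ : ℝ => (ρ ^ 2 - s ^ 2) / NN ρ θ s :=
    continuous_const.div hNc fun θ => (NN_pos hs.le hsρ).ne'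
  have hcc : Continuous fun θ : ℝ => (((ρ ^ 2 - s ^ 2) / NN ρ θ s : ℝ) : ℂ) *
      (1 + circleMap 0 ρ θ * deriv (deriv f) (circleMap 0 ρ θ) / deriv f (circleMap 0 ρ θ)) :=
    (Complex.continuous_ofReal.comp hPc).mul hc
  have h5 := Complex.reCLM.intervalIntegral_comp_comm (hcc.intervalIntegrable 0 (2 * Real.pi)
    (μ := volume))
  rw [Complex.reCLM_apply] at h5
  have h6 : ∫ θ in (0 : ℝ)..2 * Real.pi, (ρ ^ 2 - s ^ 2) / NN ρ θ s * uu f ρ θ =
      ∫ θ in (0 : ℝ)..2 * Real.pi, Complex.reCLM ((((ρ ^ 2 - s ^ 2) / NN ρ θ s : ℝ) : ℂ) *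
        (1 + circleMap 0 ρ θ * deriv (deriv f) (circleMap 0 ρ θ) /
          deriv f (circleMap 0 ρ θ))) := by
    refine intervalIntegral.integral_congr fun θ _ => ?_
    simp only [Complex.reCLM_apply, Complex.re_ofReal_mul, uu]
  rw [h6, h5, ← h2, Real.circleAverage_def, Complex.real_smul, Complex.re_ofReal_mul]
  congr 2
  refine intervalIntegral.integral_congr fun θ _ => ?_
  simp only [Pi.smul_apply', poissonKernel_NN, Complex.real_smul]

/-- The Poisson formula. -/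
theorem poisson_uu {s : ℝ} (hs : 0 < s) (hsρ : s < ρ) :
    (deriv (deriv f) (s : ℂ) / deriv f (s : ℂ)).re = (2 * Real.pi)⁻¹ *
      ∫ θ in (0 : ℝ)..2 * Real.pi, uu f ρ θ * (2 * ((circleMap 0 ρ θ).re - s) / NN ρ θ s) := by
  have hNc : Continuous fun θ : ℝ => NN ρ θ s := NN_cont2 ρ s
  have hPc : Continuous fun θ : ℝ => (ρ ^ 2 - s ^ 2) / NN ρ θ s :=
    continuous_const.div hNc fun θ => (NN_pos hs.le hsρ).ne'
  have h5 := poisson_re hf h0 h1 hs hsρ
  have huc := uu_cont hf h0 h1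
  have hui := uu_int hf h0 h1
  -- subtract the mean
  have h6 : ∫ θ in (0 : ℝ)..2 * Real.pi, uu f ρ θ * (2 * ((circleMap 0 ρ θ).re - s) / NN ρ θ s) =
      s⁻¹ * (∫ θ in (0 : ℝ)..2 * Real.pi, (ρ ^ 2 - s ^ 2) / NN ρ θ s * uu f ρ θ) -
        s⁻¹ * (∫ θ in (0 : ℝ)..2 * Real.pi, uu f ρ θ) := by
    have i1 : Continuous fun θ : ℝ => s⁻¹ * ((ρ ^ 2 - s ^ 2) / NN ρ θ s * uu f ρ θ) :=
      continuous_const.mul (hPc.mul huc)
    have i2 : Continuous fun θ : ℝ => s⁻¹ * uu f ρ θ := continuous_const.mul huc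
    rw [← intervalIntegral.integral_const_mul, ← intervalIntegral.integral_const_mul,
      ← intervalIntegral.integral_sub (i1.intervalIntegrable _ _) (i2.intervalIntegrable _ _)]
    refine intervalIntegral.integral_congr fun θ _ => ?_
    have hN := NN_pos (θ := θ) hs.le hsρ
    have hsq := circle_sq ρ θ
    have h7 : ρ ^ 2 - s ^ 2 = NN ρ θ s + s * (2 * ((circleMap 0 ρ θ).re - s)) := by
      rw [NN, ← hsq]
      ring
    simp only [h7]
    generalize NN ρ θ s = M at hN ⊢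
    generalize uu f ρ θ = u
    generalize (circleMap 0 ρ θ).re = x
    field_simp
    ring
  rw [h6, hui, mul_sub]
  have hπ := Real.pi_pos
  have h8 : (2 * Real.pi)⁻¹ * (s⁻¹ * ∫ θ in (0 : ℝ)..2 * Real.pi,
      (ρ ^ 2 - s ^ 2) / NN ρ θ s * uu f ρ θ) =
      s⁻¹ * (1 + (s : ℂ) * deriv (deriv f) s / deriv f s).re := by
    rw [← h5]
    ring
  rw [h8]
  have h9 : (1 + (s : ℂ) * deriv (deriv f) s / deriv f s).re =
      1 + s * (deriv (deriv f) (s : ℂ) / deriv f (s : ℂ)).re := by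
    rw [Complex.add_re, Complex.one_re, mul_div_assoc, Complex.re_ofReal_mul]
  rw [h9]
  generalize (deriv (deriv f) (s : ℂ) / deriv f (s : ℂ)).re = y
  field_simp
  ring

end

/-- Derivative of the logarithm of the modulus. -/
theorem hasDerivAt_log_norm {F : ℂ → ℂ} {F' : ℂ} {s : ℝ} (hF : HasDerivAt F F' (s : ℂ))
    (hne : F s ≠ 0) : HasDerivAt (fun x : ℝ => Real.log ‖F x‖) (F' / F s).re s := by
  have h1 : HasDerivAt (fun x : ℝ => F x) F' s := hF.comp_ofReal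
  have h2 := h1.norm_sq
  have hpos : 0 < ‖F s‖ ^ 2 := pow_pos (norm_pos_iff.2 hne) 2
  have h3 := (h2.log hpos.ne').const_mul (1 / 2 : ℝ)
  have h4 : (fun x : ℝ => Real.log ‖F x‖) = fun x : ℝ => 1 / 2 * Real.log (‖F x‖ ^ 2) := by
    ext x
    rw [Real.log_pow]
    push_cast
    ring
  rw [h4]
  refine h3.congr_deriv ?_
  rw [Complex.div_re, Complex.inner, ← Complex.normSq_eq_norm_sq]
  simp only [Complex.mul_re, Complex.conj_re, Complex.conj_im]
  ring

section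

variable (hf : IsConvexMap f) {ρ t : ℝ} (h1 : ρ < 1) (ht : 0 < t) (htρ : t < ρ)

include hf h1 ht htρ

/-- The representation of `log |f'|`. -/
theorem log_deriv_eq : Real.log ‖deriv f (t : ℂ)‖ = (2 * Real.pi)⁻¹ *
    ∫ θ in (0 : ℝ)..2 * Real.pi, uu f ρ θ * (Real.log (ρ ^ 2) - Real.log (NN ρ θ t)) := by
  have h0 : 0 < ρ := ht.trans htρ
  have hball : ∀ s ∈ Icc 0 t, (s : ℂ) ∈ ball (0 : ℂ) 1 := by
    intro s hs
    rw [mem_ball_zero_iff, Complex.norm_real, Real.norm_of_nonneg hs.1]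
    linarith [hs.2]
  have huc := uu_cont hf h0 h1
  set g : ℝ → ℝ → ℝ := fun s θ =>
    uu f ρ θ * (2 * ((circleMap 0 ρ θ).re - s) / NN ρ θ s) with hg
  have hgc : ContinuousOn (Function.uncurry g) (Icc 0 t ×ˢ Icc 0 (2 * Real.pi)) := by
    have e1 : Continuous fun p : ℝ × ℝ => uu f ρ p.2 := huc.comp continuous_snd
    have e2 : Continuous fun p : ℝ × ℝ => 2 * ((circleMap 0 ρ p.2).re - p.1) := by
      have h1 : Continuous fun p : ℝ × ℝ => circleMap 0 ρ p.2 := by fun_prop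
      exact ((Complex.continuous_re.comp h1).sub continuous_fst).const_mul 2
    exact e1.continuousOn.mul (e2.continuousOn.div (NN_cont ρ).continuousOn
      fun p hp => (NN_pos hp.1.1 (hp.1.2.trans_lt htρ)).ne')
  have hd : ∀ s ∈ Ioo 0 t, HasDerivAt (fun s : ℝ => Real.log ‖deriv f (s : ℂ)‖)
      ((2 * Real.pi)⁻¹ * ∫ θ in (0 : ℝ)..2 * Real.pi, g s θ) s := by
    intro s hs
    have hb := hball s ⟨hs.1.le, hs.2.le⟩
    rw [← poisson_uu hf h0 h1 hs.1 (hs.2.trans htρ)]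
    exact hasDerivAt_log_norm (hf.analyticAt hb).deriv.differentiableAt.hasDerivAt
      (hf.deriv_ne hb)
  have hcont : ContinuousOn (fun s : ℝ => Real.log ‖deriv f (s : ℂ)‖) (Icc 0 t) := by
    intro s hs
    have hb := hball s hs
    exact (hasDerivAt_log_norm (hf.analyticAt hb).deriv.differentiableAt.hasDerivAt
      (hf.deriv_ne hb)).continuousAt.continuousWithinAt
  have hint := (inner_integrable ht.le Real.two_pi_pos.le hgc).const_mul (2 * Real.pi)⁻¹
  have h2 := intervalIntegral.integral_eq_sub_of_hasDerivAt_of_le ht.le hcont hd hint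
  rw [Complex.ofReal_zero, hf.deriv_one, norm_one, Real.log_one, sub_zero,
    intervalIntegral.integral_const_mul, swap_cont ht.le Real.two_pi_pos.le hgc] at h2
  rw [← h2]
  congr 1
  refine intervalIntegral.integral_congr fun θ _ => ?_
  show ∫ s in (0 : ℝ)..t, uu f ρ θ * (2 * ((circleMap 0 ρ θ).re - s) / NN ρ θ s) = _
  rw [intervalIntegral.integral_const_mul]
  congr 1
  exact kernel_log (circle_sq ρ θ) ht htρ

/-- Lower bound of the derivative, on a smaller circle. -/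
theorem deriv_ge_aux : ρ ^ 2 / 4 ≤ ‖deriv f (t : ℂ)‖ := by
  have h0 : 0 < ρ := ht.trans htρ
  have huc := uu_cont hf h0 h1
  have hball : (t : ℂ) ∈ ball (0 : ℂ) 1 := by
    rw [mem_ball_zero_iff, Complex.norm_real, Real.norm_of_nonneg ht.le]
    linarith
  have hpos : 0 < ‖deriv f (t : ℂ)‖ := norm_pos_iff.2 (hf.deriv_ne hball)
  have h2 := log_deriv_eq hf h1 ht htρ
  have hNc := NN_cont2 ρ t
  have hlogc : Continuous fun θ => uu f ρ θ * (Real.log (ρ ^ 2) - Real.log (NN ρ θ t)) :=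
    huc.mul (continuous_const.sub (hNc.log fun θ => (NN_pos ht.le htρ).ne'))
  have h3 : ∫ θ in (0 : ℝ)..2 * Real.pi, uu f ρ θ * Real.log (ρ ^ 2 / 4) ≤
      ∫ θ in (0 : ℝ)..2 * Real.pi, uu f ρ θ * (Real.log (ρ ^ 2) - Real.log (NN ρ θ t)) := by
    refine intervalIntegral.integral_mono_on Real.two_pi_pos.le
      ((huc.mul continuous_const).intervalIntegrable _ _) (hlogc.intervalIntegrable _ _)
      fun θ _ => ?_
    refine mul_le_mul_of_nonneg_left ?_ (uu_nonneg hf h0 h1 θ)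
    rw [Real.log_div (by positivity) (by norm_num)]
    have := Real.log_le_log (NN_pos (θ := θ) ht.le htρ) (NN_le ht.le htρ h1)
    linarith
  rw [intervalIntegral.integral_mul_const, uu_int hf h0 h1] at h3
  have h4 : Real.log (ρ ^ 2 / 4) ≤ Real.log ‖deriv f (t : ℂ)‖ := by
    rw [h2]
    have hπ := Real.two_pi_pos
    rw [inv_mul_eq_div, le_div_iff₀ hπ]
    linarith
  exact (Real.log_le_log_iff (by positivity) hpos).1 h4

/-- Comparison of the values of the derivative. -/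
theorem deriv_compare {s : ℝ} (hs : 0 < s) (hst : s ≤ t) :
    ‖deriv f (s : ℂ)‖ ≤ Real.sqrt ‖deriv f (t : ℂ)‖ * ((2 * Real.pi)⁻¹ *
      ∫ θ in (0 : ℝ)..2 * Real.pi, uu f ρ θ * (ρ * Real.sqrt (NN ρ θ t)) * (1 / NN ρ θ s)) := by
  have h0 : 0 < ρ := ht.trans htρ
  have hsρ : s < ρ := hst.trans_lt htρ
  have huc := uu_cont hf h0 h1
  have hball : ∀ x : ℝ, 0 < x → x < ρ → (x : ℂ) ∈ ball (0 : ℂ) 1 := by
    intro x hx hxρ
    rw [mem_ball_zero_iff, Complex.norm_real, Real.norm_of_nonneg hx.le]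
    linarith
  have hpt : 0 < ‖deriv f (t : ℂ)‖ := norm_pos_iff.2 (hf.deriv_ne (hball t ht htρ))
  have hps : 0 < ‖deriv f (s : ℂ)‖ := norm_pos_iff.2 (hf.deriv_ne (hball s hs hsρ))
  have hNt := NN_cont2 ρ t
  have hNs := NN_cont2 ρ s
  have lt : Continuous fun θ => Real.log (ρ ^ 2) - Real.log (NN ρ θ t) :=
    continuous_const.sub (hNt.log fun θ => (NN_pos ht.le htρ).ne')
  have ls : Continuous fun θ => Real.log (ρ ^ 2) - Real.log (NN ρ θ s) :=
    continuous_const.sub (hNs.log fun θ => (NN_pos hs.le hsρ).ne')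
  set h : ℝ → ℝ := fun θ => (Real.log (ρ ^ 2) - Real.log (NN ρ θ s)) -
    (1 / 2) * (Real.log (ρ ^ 2) - Real.log (NN ρ θ t)) with hh
  set m : ℝ := Real.log ‖deriv f (s : ℂ)‖ - (1 / 2) * Real.log ‖deriv f (t : ℂ)‖ with hm
  have hmean : (2 * Real.pi)⁻¹ * ∫ θ in (0 : ℝ)..2 * Real.pi, uu f ρ θ * h θ = m := by
    have i1 : Continuous fun θ => uu f ρ θ * (Real.log (ρ ^ 2) - Real.log (NN ρ θ s)) :=
      huc.mul ls
    have i2 : Continuous fun θ => (1 / 2) *
        (uu f ρ θ * (Real.log (ρ ^ 2) - Real.log (NN ρ θ t))) :=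
      continuous_const.mul (huc.mul lt)
    rw [hm, log_deriv_eq hf h1 hs hsρ, log_deriv_eq hf h1 ht htρ]
    have e : ∫ θ in (0 : ℝ)..2 * Real.pi, uu f ρ θ * h θ =
        (∫ θ in (0 : ℝ)..2 * Real.pi, uu f ρ θ * (Real.log (ρ ^ 2) - Real.log (NN ρ θ s))) -
        (1 / 2) * ∫ θ in (0 : ℝ)..2 * Real.pi,
          uu f ρ θ * (Real.log (ρ ^ 2) - Real.log (NN ρ θ t)) := by
      rw [← intervalIntegral.integral_const_mul, ← intervalIntegral.integral_sub
        (i1.intervalIntegrable _ _) (i2.intervalIntegrable _ _)]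
      refine intervalIntegral.integral_congr fun θ _ => ?_
      simp only [hh]
      ring
    rw [e]
    ring
  have hexp : ∀ θ, Real.exp (h θ) = ρ * Real.sqrt (NN ρ θ t) * (1 / NN ρ θ s) := by
    intro θ
    have hNtp := NN_pos (θ := θ) ht.le htρ
    have hNsp := NN_pos (θ := θ) hs.le hsρ
    have e1 : h θ = Real.log ρ + Real.log (Real.sqrt (NN ρ θ t)) - Real.log (NN ρ θ s) := by
      simp only [hh]
      rw [Real.log_sqrt hNtp.le, Real.log_pow]
      push_cast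
      ring
    rw [e1, Real.exp_sub, Real.exp_add, Real.exp_log h0, Real.exp_log (Real.sqrt_pos.2 hNtp),
      Real.exp_log hNsp]
    ring
  have hjensen : Real.exp m ≤ (2 * Real.pi)⁻¹ * ∫ θ in (0 : ℝ)..2 * Real.pi,
      uu f ρ θ * (ρ * Real.sqrt (NN ρ θ t)) * (1 / NN ρ θ s) := by
    have hhc : Continuous h := ls.sub (continuous_const.mul lt)
    have i1 : Continuous fun θ => Real.exp m * (uu f ρ θ * h θ) + Real.exp m * (1 - m) * uu f ρ θ :=
      (continuous_const.mul (huc.mul hhc)).add (continuous_const.mul huc)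
    have i2 : Continuous fun θ => uu f ρ θ * (ρ * Real.sqrt (NN ρ θ t)) * (1 / NN ρ θ s) :=
      (huc.mul (continuous_const.mul (Real.continuous_sqrt.comp hNt))).mul
        (continuous_const.div hNs fun θ => (NN_pos hs.le hsρ).ne')
    have h3 : ∫ θ in (0 : ℝ)..2 * Real.pi,
        (Real.exp m * (uu f ρ θ * h θ) + Real.exp m * (1 - m) * uu f ρ θ) ≤
        ∫ θ in (0 : ℝ)..2 * Real.pi,
          uu f ρ θ * (ρ * Real.sqrt (NN ρ θ t)) * (1 / NN ρ θ s) := by
      refine intervalIntegral.integral_mono_on Real.two_pi_pos.le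
        (i1.intervalIntegrable _ _) (i2.intervalIntegrable _ _) fun θ _ => ?_
      have e1 : uu f ρ θ * (ρ * Real.sqrt (NN ρ θ t)) * (1 / NN ρ θ s) =
          uu f ρ θ * Real.exp (h θ) := by
        rw [hexp]
        ring
      have e2 : Real.exp m * (uu f ρ θ * h θ) + Real.exp m * (1 - m) * uu f ρ θ =
          uu f ρ θ * (Real.exp m * (h θ - m + 1)) := by ring
      rw [e1, e2]
      refine mul_le_mul_of_nonneg_left ?_ (uu_nonneg hf h0 h1 θ)
      have e3 : Real.exp (h θ) = Real.exp m * Real.exp (h θ - m) := by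
        rw [← Real.exp_add]
        congr 1
        ring
      rw [e3]
      exact mul_le_mul_of_nonneg_left (Real.add_one_le_exp _) (Real.exp_pos _).le
    have i3 : Continuous fun θ => Real.exp m * (uu f ρ θ * h θ) := continuous_const.mul (huc.mul hhc)
    have i4 : Continuous fun θ => Real.exp m * (1 - m) * uu f ρ θ := continuous_const.mul huc
    rw [intervalIntegral.integral_add (i3.intervalIntegrable _ _) (i4.intervalIntegrable _ _),
      intervalIntegral.integral_const_mul, intervalIntegral.integral_const_mul,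
      uu_int hf h0 h1] at h3
    have h4 := mul_le_mul_of_nonneg_left h3 (inv_nonneg.2 Real.two_pi_pos.le)
    refine le_trans (le_of_eq ?_) h4
    have h5 : (2 * Real.pi)⁻¹ * (Real.exp m * (∫ θ in (0 : ℝ)..2 * Real.pi, uu f ρ θ * h θ) +
        Real.exp m * (1 - m) * (2 * Real.pi)) =
        Real.exp m * ((2 * Real.pi)⁻¹ * ∫ θ in (0 : ℝ)..2 * Real.pi, uu f ρ θ * h θ) +
          Real.exp m * (1 - m) * ((2 * Real.pi)⁻¹ * (2 * Real.pi)) := by ring
    rw [h5, hmean, inv_mul_cancel₀ Real.two_pi_pos.ne']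
    ring
  have hexpm : ‖deriv f (s : ℂ)‖ = Real.sqrt ‖deriv f (t : ℂ)‖ * Real.exp m := by
    have e1 : m = Real.log ‖deriv f (s : ℂ)‖ - Real.log (Real.sqrt ‖deriv f (t : ℂ)‖) := by
      rw [Real.log_sqrt hpt.le, hm]
      ring
    have hsq := Real.sqrt_pos.2 hpt
    rw [e1, Real.exp_sub, Real.exp_log hps, Real.exp_log hsq]
    field_simp
  rw [hexpm]
  exact mul_le_mul_of_nonneg_left hjensen (Real.sqrt_nonneg _)

/-- The key inequality at a positive real point. -/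
theorem key_real : ‖f (t : ℂ)‖ ^ 2 ≤ Real.pi ^ 2 / 4 * t ^ 2 * ‖deriv f (t : ℂ)‖ := by
  have h0 : 0 < ρ := ht.trans htρ
  have huc := uu_cont hf h0 h1
  have hball : ∀ s ∈ Icc 0 t, (s : ℂ) ∈ ball (0 : ℂ) 1 := by
    intro s hs
    rw [mem_ball_zero_iff, Complex.norm_real, Real.norm_of_nonneg hs.1]
    linarith [hs.2]
  -- the integral of the derivative
  have hd : ∀ s ∈ uIcc 0 t, HasDerivAt (fun x : ℝ => f (x : ℂ)) (deriv f (s : ℂ)) s := by
    intro s hs
    rw [uIcc_of_le ht.le] at hs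
    exact (hf.analyticAt (hball s hs)).differentiableAt.hasDerivAt.comp_ofReal
  have hdc : ContinuousOn (fun s : ℝ => deriv f (s : ℂ)) (Icc 0 t) := by
    intro s hs
    have h2 : ContinuousAt (deriv f) (s : ℂ) := (hf.analyticAt (hball s hs)).deriv.continuousAt
    exact (ContinuousAt.comp (g := deriv f) h2
      Complex.continuous_ofReal.continuousAt).continuousWithinAt
  have hfi : IntervalIntegrable (fun s : ℝ => deriv f (s : ℂ)) volume 0 t := by
    apply ContinuousOn.intervalIntegrable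
    rwa [uIcc_of_le ht.le]
  have h2 : f (t : ℂ) = ∫ s in (0 : ℝ)..t, deriv f (s : ℂ) := by
    rw [intervalIntegral.integral_eq_sub_of_hasDerivAt hd hfi, Complex.ofReal_zero, hf.zero,
      sub_zero]
  have h3 : ‖f (t : ℂ)‖ ≤ ∫ s in (0 : ℝ)..t, ‖deriv f (s : ℂ)‖ := by
    rw [h2]
    exact intervalIntegral.norm_integral_le_integral_norm ht.le
  set g : ℝ → ℝ → ℝ := fun s θ => uu f ρ θ * (ρ * Real.sqrt (NN ρ θ t)) * (1 / NN ρ θ s) with hg
  have hgc : ContinuousOn (Function.uncurry g) (Icc 0 t ×ˢ Icc 0 (2 * Real.pi)) := by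
    have e1 : Continuous fun p : ℝ × ℝ => uu f ρ p.2 := huc.comp continuous_snd
    have e2 : Continuous fun p : ℝ × ℝ => ρ * Real.sqrt (NN ρ p.2 t) :=
      continuous_const.mul (Real.continuous_sqrt.comp ((NN_cont2 ρ t).comp continuous_snd))
    exact (e1.mul e2).continuousOn.mul (continuousOn_const.div (NN_cont ρ).continuousOn
      fun p hp => (NN_pos hp.1.1 (hp.1.2.trans_lt htρ)).ne')
  set q : ℝ := Real.sqrt ‖deriv f (t : ℂ)‖ with hq
  have hint := (inner_integrable ht.le Real.two_pi_pos.le hgc).const_mul (q * (2 * Real.pi)⁻¹)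
  have h4 : ∫ s in (0 : ℝ)..t, ‖deriv f (s : ℂ)‖ ≤
      ∫ s in (0 : ℝ)..t, (q * (2 * Real.pi)⁻¹) * ∫ θ in (0 : ℝ)..2 * Real.pi, g s θ := by
    refine intervalIntegral.integral_mono_on_of_le_Ioo ht.le hfi.norm hint fun s hs => ?_
    have := deriv_compare hf h1 ht htρ hs.1 hs.2.le
    rw [← mul_assoc] at this
    exact this
  rw [intervalIntegral.integral_const_mul, swap_cont ht.le Real.two_pi_pos.le hgc] at h4
  have h5 : ∫ θ in (0 : ℝ)..2 * Real.pi, ∫ s in (0 : ℝ)..t, g s θ ≤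
      ∫ θ in (0 : ℝ)..2 * Real.pi, uu f ρ θ * (Real.pi / 2 * t) := by
    have hsw := flip_contOn hgc
    refine intervalIntegral.integral_mono_on Real.two_pi_pos.le
      (inner_integrable Real.two_pi_pos.le ht.le hsw)
      ((huc.mul continuous_const).intervalIntegrable _ _) fun θ _ => ?_
    have e1 : ∫ s in (0 : ℝ)..t, g s θ = uu f ρ θ * (ρ * Real.sqrt (NN ρ θ t) *
        ∫ s in (0 : ℝ)..t, 1 / NN ρ θ s) := by
      simp only [hg]
      rw [intervalIntegral.integral_const_mul]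
      ring
    rw [e1]
    exact mul_le_mul_of_nonneg_left (kernel_int (circle_sq ρ θ) ht htρ) (uu_nonneg hf h0 h1 θ)
  rw [intervalIntegral.integral_mul_const, uu_int hf h0 h1] at h5
  have hq0 : 0 ≤ q := Real.sqrt_nonneg _
  have h6 : ‖f (t : ℂ)‖ ≤ q * (Real.pi / 2 * t) := by
    have hπ := Real.two_pi_pos
    have h7 : q * (2 * Real.pi)⁻¹ * (∫ θ in (0 : ℝ)..2 * Real.pi, ∫ s in (0 : ℝ)..t, g s θ) ≤
        q * (2 * Real.pi)⁻¹ * (2 * Real.pi * (Real.pi / 2 * t)) :=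
      mul_le_mul_of_nonneg_left h5 (by positivity)
    have h8 : q * (2 * Real.pi)⁻¹ * (2 * Real.pi * (Real.pi / 2 * t)) = q * (Real.pi / 2 * t) := by
      field_simp
    linarith
  calc ‖f (t : ℂ)‖ ^ 2 ≤ (q * (Real.pi / 2 * t)) ^ 2 :=
        pow_le_pow_left₀ (norm_nonneg _) h6 2
    _ = Real.pi ^ 2 / 4 * t ^ 2 * q ^ 2 := by ring
    _ = Real.pi ^ 2 / 4 * t ^ 2 * ‖deriv f (t : ℂ)‖ := by
        rw [hq, Real.sq_sqrt (norm_nonneg _)]

end

/-! ### rotations -/

theorem mul_mem_ball {e z : ℂ} (he : ‖e‖ = 1) (hz : z ∈ ball (0 : ℂ) 1) :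
    e * z ∈ ball (0 : ℂ) 1 := by
  rw [mem_ball_zero_iff] at hz ⊢
  rwa [norm_mul, he, one_mul]

theorem IsConvexMap.hasDerivAt_rot (hf : IsConvexMap f) {e : ℂ} (he : ‖e‖ = 1) {z : ℂ}
    (hz : z ∈ ball (0 : ℂ) 1) :
    HasDerivAt (fun z => e⁻¹ * f (e * z)) (deriv f (e * z)) z := by
  have he0 : e ≠ 0 := by
    rintro rfl
    simp at he
  have h1 : HasDerivAt f (deriv f (e * z)) (e * z) :=
    (hf.analyticAt (mul_mem_ball he hz)).differentiableAt.hasDerivAt
  have h2 : HasDerivAt (fun z : ℂ => e * z) (e * 1) z := (hasDerivAt_id z).const_mul e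
  have h3 := (HasDerivAt.comp (h₂ := f) (h := fun z : ℂ => e * z) z h1 h2).const_mul e⁻¹
  refine h3.congr_deriv ?_
  field_simp

theorem IsConvexMap.rot (hf : IsConvexMap f) {e : ℂ} (he : ‖e‖ = 1) :
    IsConvexMap (fun z => e⁻¹ * f (e * z)) := by
  have he0 : e ≠ 0 := by
    rintro rfl
    simp at he
  refine ⟨fun z hz => (hf.hasDerivAt_rot he hz).differentiableAt.differentiableWithinAt, ?_, ?_,
    ?_, ?_⟩
  · intro x hx y hy hxy
    have h1 : f (e * x) = f (e * y) := mul_left_cancel₀ (inv_ne_zero he0) hxy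
    exact mul_left_cancel₀ he0 (hf.inj (mul_mem_ball he hx) (mul_mem_ball he hy) h1)
  · simp [hf.zero]
  · rw [(hf.hasDerivAt_rot he (by simp)).deriv, mul_zero, hf.deriv_one]
  · have h1 : (fun z => e⁻¹ * f (e * z)) '' ball 0 1 = (fun w => e⁻¹ * w) '' (f '' ball 0 1) := by
      ext w
      constructor
      · rintro ⟨z, hz, rfl⟩
        exact ⟨_, ⟨e * z, mul_mem_ball he hz, rfl⟩, rfl⟩
      · rintro ⟨_, ⟨y, hy, rfl⟩, rfl⟩
        refine ⟨e⁻¹ * y, mul_mem_ball (by rw [norm_inv, he, inv_one]) hy, ?_⟩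
        show e⁻¹ * f (e * (e⁻¹ * y)) = _
        rw [mul_inv_cancel_left₀ he0]
    rw [h1]
    have h2 : (fun w : ℂ => e⁻¹ * w) = ⇑(LinearMap.mulLeft ℝ e⁻¹) := by
      ext w
      simp
    rw [h2]
    exact hf.convex.linear_image _

/-- polar coordinates -/
theorem exists_polar {z : ℂ} (hz0 : z ≠ 0) : ∃ e : ℂ, ‖e‖ = 1 ∧ z = e * (‖z‖ : ℂ) := by
  have h : (‖z‖ : ℂ) ≠ 0 := by exact_mod_cast (norm_ne_zero_iff.2 hz0)
  refine ⟨z / ‖z‖, ?_, by field_simp⟩
  rw [norm_div, Complex.norm_real, norm_norm, div_self (norm_ne_zero_iff.2 hz0)]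

/-- **Lower bound of the derivative** of a normalised convex map. -/
theorem IsConvexMap.deriv_ge (hf : IsConvexMap f) {z : ℂ} (hz : z ∈ ball (0 : ℂ) 1) :
    1 / 4 ≤ ‖deriv f z‖ := by
  rcases eq_or_ne z 0 with rfl | hz0
  · rw [hf.deriv_one, norm_one]
    norm_num
  · obtain ⟨e, he, hze⟩ := exists_polar hz0
    have hzn : ‖z‖ < 1 := by simpa using hz
    have hzp : 0 < ‖z‖ := norm_pos_iff.2 hz0
    have htb : (‖z‖ : ℂ) ∈ ball (0 : ℂ) 1 := by
      rw [mem_ball_zero_iff, Complex.norm_real, norm_norm]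
      exact hzn
    have key : ∀ ρ : ℝ, ‖z‖ < ρ → ρ < 1 → ρ ^ 2 / 4 ≤ ‖deriv f z‖ := by
      intro ρ h1 h2
      have h3 := deriv_ge_aux (hf.rot he) h2 hzp h1
      rw [(hf.hasDerivAt_rot he htb).deriv, ← hze] at h3
      exact h3
    have h4 : Tendsto (fun ρ : ℝ => ρ ^ 2 / 4) (𝓝[<] 1) (𝓝 (1 ^ 2 / 4)) :=
      (((continuous_pow 2).div_const 4).tendsto 1).mono_left nhdsWithin_le_nhds
    rw [one_pow] at h4
    refine le_of_tendsto h4 ?_
    filter_upwards [Ioo_mem_nhdsLT hzn] with ρ hρ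
    exact key ρ hρ.1 hρ.2

/-- **The key inequality** for normalised convex maps. -/
theorem IsConvexMap.key (hf : IsConvexMap f) {z : ℂ} (hz : z ∈ ball (0 : ℂ) 1) :
    ‖f z‖ ^ 2 ≤ Real.pi ^ 2 / 4 * ‖z‖ ^ 2 * ‖deriv f z‖ := by
  rcases eq_or_ne z 0 with rfl | hz0
  · rw [hf.zero]
    simp
  · obtain ⟨e, he, hze⟩ := exists_polar hz0
    have hzn : ‖z‖ < 1 := by simpa using hz
    have hzp : 0 < ‖z‖ := norm_pos_iff.2 hz0
    have htb : (‖z‖ : ℂ) ∈ ball (0 : ℂ) 1 := by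
      rw [mem_ball_zero_iff, Complex.norm_real, norm_norm]
      exact hzn
    obtain ⟨ρ, h1, h2⟩ := exists_between hzn
    have h3 := key_real (hf.rot he) h2 hzp h1
    rw [(hf.hasDerivAt_rot he htb).deriv, ← hze, norm_mul, norm_inv, he, inv_one, one_mul] at h3
    exact h3

end Pool.Agent.MobConv
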