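import Mathlib
import Pool.Agent.Lib.MP_4b1e7e_an.Asy.Distort

/-!
# Coefficients of functions of positive real part with at most a simple pole at one boundary point
-/

set_option autoImplicit false

namespace Pool.Agent.MobConv

open Metric Filter Topology Set MeasureTheory

variable {P : ℂ → ℂ} {ρ r : ℝ}

/-- The Poisson formula for the real part. -/
theorem poisson_re' (hP : DifferentiableOn ℂ P (ball 0 1)) (h0 : 0 < ρ) (h1 : ρ < 1) {s : ℝ}
    (hs : 0 < s) (hsρ : s < ρ) :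
    (2 * Real.pi)⁻¹ * ∫ θ in (0 : ℝ)..2 * Real.pi, (ρ ^ 2 - s ^ 2) / NN ρ θ s *
      (P (circleMap 0 ρ θ)).re = (P s).re := by
  have hsn : ‖(s : ℂ)‖ < ρ := by rw [Complex.norm_real, Real.norm_of_nonneg hs.le]; exact hsρ
  have h2 := (diffCont_ball hP h1).circleAverage_poissonKernel_smul (w := (s : ℂ))
    (by rw [mem_ball_zero_iff]; exact hsn)
  have hc := continuous_circle hP h0 h1
  have hNc : Continuous fun θ : ℝ => NN ρ θ s := NN_cont2 ρ s
  have hPc : Continuous fun θ : ℝ => (ρ ^ 2 - s ^ 2) / NN ρ θ s :=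
    continuous_const.div hNc fun θ => (NN_pos hs.le hsρ).ne'
  have hcc : Continuous fun θ : ℝ => (((ρ ^ 2 - s ^ 2) / NN ρ θ s : ℝ) : ℂ) *
      P (circleMap 0 ρ θ) := (Complex.continuous_ofReal.comp hPc).mul hc
  have h5 := Complex.reCLM.intervalIntegral_comp_comm (hcc.intervalIntegrable 0 (2 * Real.pi)
    (μ := volume))
  rw [Complex.reCLM_apply] at h5
  have h6 : ∫ θ in (0 : ℝ)..2 * Real.pi, (ρ ^ 2 - s ^ 2) / NN ρ θ s * (P (circleMap 0 ρ θ)).re =
      ∫ θ in (0 : ℝ)..2 * Real.pi, Complex.reCLM ((((ρ ^ 2 - s ^ 2) / NN ρ θ s : ℝ) : ℂ) *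
        P (circleMap 0 ρ θ)) := by
    refine intervalIntegral.integral_congr fun θ _ => ?_
    simp only [Complex.reCLM_apply, Complex.re_ofReal_mul]
  rw [h6, h5, ← h2, Real.circleAverage_def, Complex.real_smul, Complex.re_ofReal_mul]
  congr 2
  refine intervalIntegral.integral_congr fun θ _ => ?_
  simp only [Pi.smul_apply', poissonKernel_NN, Complex.real_smul]

/-! ### the kernel -/

theorem circle_one_re (ρ θ : ℝ) : (circleMap 0 ρ θ).re = ρ * (circleMap 0 1 θ).re := by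
  simp [circleMap]

theorem circle_one_im (ρ θ : ℝ) : (circleMap 0 ρ θ).im = ρ * (circleMap 0 1 θ).im := by
  simp [circleMap]

theorem NN_scale (ρ θ r : ℝ) : NN ρ θ (ρ * r) = ρ ^ 2 * NN 1 θ r := by
  rw [NN, NN, circle_one_re, circle_one_im]
  ring

theorem NN_one (θ r : ℝ) : NN 1 θ r = (1 - r) ^ 2 + r * NN 1 θ 1 := by
  have h := circle_sq 1 θ
  rw [NN, NN]
  linear_combination (1 - r) * h

/-- the kernel -/
noncomputable def Kr (r θ : ℝ) : ℝ := (1 - r) ^ 2 / NN 1 θ r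

theorem NN_one_nonneg (θ s : ℝ) : 0 ≤ NN 1 θ s := by
  unfold NN
  positivity

theorem Kr_nonneg (r θ : ℝ) : 0 ≤ Kr r θ := div_nonneg (sq_nonneg _) (NN_one_nonneg _ _)

theorem NN_one_pos (hr1 : r < 1) (hr0 : 0 < r) (θ : ℝ) : 0 < NN 1 θ r := NN_pos hr0.le hr1

theorem Kr_cont (hr0 : 0 < r) (hr1 : r < 1) : Continuous (Kr r) :=
  continuous_const.div (NN_cont2 1 r) fun θ => (NN_one_pos hr1 hr0 θ).ne'

theorem one_sub_Kr (hr0 : 0 < r) (hr1 : r < 1) (θ : ℝ) :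
    1 - Kr r θ = r * NN 1 θ 1 / NN 1 θ r := by
  have h := NN_one_pos hr1 hr0 θ
  rw [Kr, eq_div_iff h.ne', sub_mul, div_mul_cancel₀ _ h.ne', NN_one θ r]
  ring

section

variable (hP : DifferentiableOn ℂ P (ball 0 1)) (h0 : 0 < ρ) (h1 : ρ < 1) (hr0 : 0 < r)
  (hr1 : r < 1)

include hP h0 h1 hr0 hr1

theorem integral_Kr : ∫ θ in (0 : ℝ)..2 * Real.pi, Kr r θ * (P (circleMap 0 ρ θ)).re =
    2 * Real.pi * ((1 - r) / (1 + r) * (P ((ρ * r : ℝ) : ℂ)).re) := by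
  have h2 := poisson_re' hP h0 h1 (s := ρ * r) (by positivity) (by nlinarith)
  have h3 : ∀ θ, (ρ ^ 2 - (ρ * r) ^ 2) / NN ρ θ (ρ * r) * (P (circleMap 0 ρ θ)).re =
      (1 + r) / (1 - r) * (Kr r θ * (P (circleMap 0 ρ θ)).re) := by
    intro θ
    have hN := NN_one_pos hr1 hr0 θ
    have hr : 0 < 1 - r := by linarith
    rw [NN_scale, Kr]
    field_simp
    ring
  simp only [h3] at h2
  rw [intervalIntegral.integral_const_mul] at h2
  have hr : 0 < 1 - r := by linarith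
  have hr' : 0 < 1 + r := by linarith
  have hπ := Real.pi_pos
  rw [← h2]
  field_simp

omit hP in
theorem v_bound (hre : ∀ z ∈ ball (0 : ℂ) 1, 0 ≤ (P z).re) {C : ℝ}
    (hC : ∀ z ∈ ball (0 : ℂ) 1, ‖1 - z‖ * ‖P z‖ ≤ C) (θ : ℝ) :
    |(1 - Kr r θ) * (P (circleMap 0 ρ θ)).re| ≤ 4 * C / (1 - r) ^ 2 := by
  have hz := circleMap_mem_ball' h0 h1 θ
  have hu := hre _ hz
  have hN := NN_one_pos hr1 hr0 θ
  have hN1 := NN_one_nonneg θ 1
  have hr : 0 < 1 - r := by linarith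
  have hle : (1 - r) ^ 2 ≤ NN 1 θ r := by
    rw [NN_one θ r]
    have := mul_nonneg hr0.le hN1
    linarith
  rw [one_sub_Kr hr0 hr1, abs_of_nonneg (mul_nonneg (by positivity) hu)]
  -- the distance to one
  have h2 : NN 1 θ 1 = ‖circleMap 0 1 θ - 1‖ ^ 2 := by
    have := norm_sub_sq 1 θ 1
    rw [Complex.ofReal_one] at this
    exact this.symm
  have h3 : circleMap 0 ρ θ = (ρ : ℂ) * circleMap 0 1 θ := by simp [circleMap]
  have h4 : ‖circleMap 0 1 θ‖ = 1 := by rw [norm_circleMap_zero, abs_one]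
  have h5 : 1 - ρ ≤ ‖1 - circleMap 0 ρ θ‖ := by
    have h6 := norm_sub_norm_le (1 : ℂ) (circleMap 0 ρ θ)
    rwa [norm_one, norm_circleMap_zero, abs_of_pos h0] at h6
  have h6 : ‖circleMap 0 1 θ - 1‖ ≤ 2 * ‖1 - circleMap 0 ρ θ‖ := by
    have h7 : circleMap 0 1 θ - 1 = (1 - (ρ : ℂ)) * circleMap 0 1 θ - (1 - circleMap 0 ρ θ) := by
      rw [h3]
      ring
    have h8 : ‖(1 - (ρ : ℂ)) * circleMap 0 1 θ‖ = 1 - ρ := by
      rw [norm_mul, h4, mul_one]
      have : (1 : ℂ) - (ρ : ℂ) = ((1 - ρ : ℝ) : ℂ) := by push_cast; ring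
      rw [this, Complex.norm_real, Real.norm_of_nonneg (by linarith)]
    calc ‖circleMap 0 1 θ - 1‖ ≤ ‖(1 - (ρ : ℂ)) * circleMap 0 1 θ‖ + ‖1 - circleMap 0 ρ θ‖ := by
          rw [h7]
          exact norm_sub_le _ _
      _ ≤ 2 * ‖1 - circleMap 0 ρ θ‖ := by
          rw [h8]
          linarith
  have h7 : ‖circleMap 0 1 θ - 1‖ ≤ 2 := by
    calc _ ≤ ‖circleMap 0 1 θ‖ + ‖(1 : ℂ)‖ := norm_sub_le _ _
      _ = 2 := by rw [h4, norm_one]; norm_num
  have h8 : NN 1 θ 1 * (P (circleMap 0 ρ θ)).re ≤ 4 * C := by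
    have h9 : (P (circleMap 0 ρ θ)).re ≤ ‖P (circleMap 0 ρ θ)‖ := Complex.re_le_norm _
    have h10 := hC _ hz
    rw [h2]
    have h11 : ‖circleMap 0 1 θ - 1‖ ^ 2 ≤ 4 * ‖1 - circleMap 0 ρ θ‖ := by
      have := norm_nonneg (circleMap 0 1 θ - 1)
      nlinarith
    calc ‖circleMap 0 1 θ - 1‖ ^ 2 * (P (circleMap 0 ρ θ)).re
        ≤ (4 * ‖1 - circleMap 0 ρ θ‖) * ‖P (circleMap 0 ρ θ)‖ :=
          mul_le_mul h11 h9 hu (by positivity)
      _ = 4 * (‖1 - circleMap 0 ρ θ‖ * ‖P (circleMap 0 ρ θ)‖) := by ring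
      _ ≤ 4 * C := by linarith
  have hC0 : 0 ≤ C := (mul_nonneg (norm_nonneg _) (norm_nonneg _)).trans (hC 0 (by simp))
  calc r * NN 1 θ 1 / NN 1 θ r * (P (circleMap 0 ρ θ)).re
      = r * (NN 1 θ 1 * (P (circleMap 0 ρ θ)).re) / NN 1 θ r := by ring
    _ ≤ 1 * (4 * C) / NN 1 θ r := by
        refine div_le_div_of_nonneg_right ?_ hN.le
        exact mul_le_mul hr1.le h8 (mul_nonneg hN1 hu) zero_le_one
    _ ≤ 4 * C / (1 - r) ^ 2 := by
        rw [one_mul]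
        exact div_le_div_of_nonneg_left (by positivity) (by positivity) hle

end

/-- Fourier coefficients as integrals. -/
theorem fc_eq (v : ℝ → ℂ) (n : ℕ) : fourierCoeffOn Real.two_pi_pos v (n : ℤ) =
    (2 * Real.pi : ℂ)⁻¹ * ∫ θ in (0 : ℝ)..2 * Real.pi, Complex.exp (-((n : ℂ) * θ * Complex.I)) *
      v θ := by
  rw [fourierCoeffOn_eq_integral, sub_zero]
  rw [Complex.real_smul]
  congr 1
  · push_cast
    rw [one_div]
  · refine intervalIntegral.integral_congr fun θ _ => ?_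
    simp only [smul_eq_mul]
    congr 1
    rw [fourier_coe_apply]
    congr 1
    have hπ : (Real.pi : ℂ) ≠ 0 := by exact_mod_cast Real.pi_ne_zero
    push_cast
    field_simp

/-- Parseval, upper bound for finitely many coefficients. -/
theorem parseval_le {v : ℝ → ℝ} (hv : Continuous v) {M : ℝ} (hM : ∀ θ, |v θ| ≤ M) (S : Finset ℕ) :
    ∑ n ∈ S, ‖(2 * Real.pi : ℂ)⁻¹ * ∫ θ in (0 : ℝ)..2 * Real.pi,
      Complex.exp (-((n : ℂ) * θ * Complex.I)) * (v θ : ℂ)‖ ^ 2 ≤ M ^ 2 := by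
  set w : ℝ → ℂ := fun θ => (v θ : ℂ) with hw
  have hwc : Continuous w := Complex.continuous_ofReal.comp hv
  have hL2 : MemLp w 2 (volume.restrict (Ioc 0 (2 * Real.pi))) := by
    refine MemLp.of_bound hwc.aestronglyMeasurable M (Eventually.of_forall fun θ => ?_)
    rw [hw, Complex.norm_real]
    exact hM θ
  have hP := hasSum_sq_fourierCoeffOn Real.two_pi_pos hL2
  have hM0 : 0 ≤ M := (abs_nonneg _).trans (hM 0)
  have h1 : ∑ n ∈ S, ‖fourierCoeffOn Real.two_pi_pos w (n : ℤ)‖ ^ 2 ≤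
      (2 * Real.pi - 0)⁻¹ • ∫ θ in (0 : ℝ)..2 * Real.pi, ‖w θ‖ ^ 2 := by
    have h2 := sum_le_hasSum (S.map Nat.castEmbedding) (fun i _ => sq_nonneg _) hP
    rw [Finset.sum_map] at h2
    exact h2
  have h3 : ∫ θ in (0 : ℝ)..2 * Real.pi, ‖w θ‖ ^ 2 ≤ ∫ _ in (0 : ℝ)..2 * Real.pi, M ^ 2 := by
    refine intervalIntegral.integral_mono_on Real.two_pi_pos.le
      ((hwc.norm.pow 2).intervalIntegrable _ _) (continuous_const.intervalIntegrable _ _)
      fun θ _ => ?_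
    refine pow_le_pow_left₀ (norm_nonneg _) ?_ 2
    rw [hw, Complex.norm_real]
    exact hM θ
  rw [intervalIntegral.integral_const, sub_zero, smul_eq_mul] at h3
  have h4 : (2 * Real.pi - 0)⁻¹ • ∫ θ in (0 : ℝ)..2 * Real.pi, ‖w θ‖ ^ 2 ≤ M ^ 2 := by
    rw [sub_zero, smul_eq_mul, inv_mul_le_iff₀ Real.two_pi_pos]
    exact h3
  refine le_trans (le_of_eq ?_) (h1.trans h4)
  refine Finset.sum_congr rfl fun n _ => ?_
  rw [fc_eq]

/-- **Mass bound**: coefficients of functions of positive real part with at most a simple pole at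
the point `1`. -/
theorem mass (hP : DifferentiableOn ℂ P (ball 0 1))
    (hre : ∀ z ∈ ball (0 : ℂ) 1, 0 ≤ (P z).re) {C : ℝ}
    (hC : ∀ z ∈ ball (0 : ℂ) 1, ‖1 - z‖ * ‖P z‖ ≤ C) (hr0 : 0 < r) (hr1 : r < 1) {ε : ℝ}
    (hε : 0 < ε) : ∀ᶠ n in atTop, ‖tcoeff P n‖ ≤ 2 * ((1 - r) / (1 + r) * (P r).re) + ε := by
  set κ : ℝ := (1 - r) / (1 + r) * (P r).re with hκ
  set M : ℝ := 4 * C / (1 - r) ^ 2 with hM
  by_contra hcon
  have hfreq : ∃ᶠ n in atTop, ¬ ‖tcoeff P n‖ ≤ 2 * κ + ε := not_eventually.1 hcon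
  have hinf : {n : ℕ | 1 ≤ n ∧ 2 * κ + ε < ‖tcoeff P n‖}.Infinite := by
    rw [← Nat.frequently_atTop_iff_infinite]
    refine (hfreq.and_eventually (eventually_ge_atTop 1)).mono fun n hn => ?_
    exact ⟨hn.2, not_le.1 hn.1⟩
  obtain ⟨N, hN⟩ := exists_nat_gt (M ^ 2 / (ε / 2) ^ 2)
  obtain ⟨S, hS, hScard⟩ := hinf.exists_subset_card_eq N
  -- the lower bound for the coefficients of `v`
  have hlow : ∀ ρ : ℝ, 0 < ρ → ρ < 1 → ∀ n : ℕ, 1 ≤ n →
      ‖tcoeff P n‖ * ρ ^ n / 2 - (1 - r) / (1 + r) * (P ((ρ * r : ℝ) : ℂ)).re ≤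
      ‖(2 * Real.pi : ℂ)⁻¹ * ∫ θ in (0 : ℝ)..2 * Real.pi,
        Complex.exp (-((n : ℂ) * θ * Complex.I)) *
          (((1 - Kr r θ) * (P (circleMap 0 ρ θ)).re : ℝ) : ℂ)‖ := by
    intro ρ h0 h1 n hn
    have hc := Complex.continuous_re.comp (continuous_circle hP h0 h1)
    have hK := Kr_cont hr0 hr1
    have hE : Continuous fun θ : ℝ => Complex.exp (-((n : ℂ) * θ * Complex.I)) := by fun_prop
    have i1 : Continuous fun θ : ℝ => Complex.exp (-((n : ℂ) * θ * Complex.I)) *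
        ((P (circleMap 0 ρ θ)).re : ℂ) := hE.mul (Complex.continuous_ofReal.comp hc)
    have i2 : Continuous fun θ : ℝ => Complex.exp (-((n : ℂ) * θ * Complex.I)) *
        ((Kr r θ * (P (circleMap 0 ρ θ)).re : ℝ) : ℂ) :=
      hE.mul (Complex.continuous_ofReal.comp (hK.mul hc))
    have h2 : ∫ θ in (0 : ℝ)..2 * Real.pi, Complex.exp (-((n : ℂ) * θ * Complex.I)) *
        (((1 - Kr r θ) * (P (circleMap 0 ρ θ)).re : ℝ) : ℂ) =
        Real.pi * (tcoeff P n * ρ ^ n) - ∫ θ in (0 : ℝ)..2 * Real.pi,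
          Complex.exp (-((n : ℂ) * θ * Complex.I)) *
            ((Kr r θ * (P (circleMap 0 ρ θ)).re : ℝ) : ℂ) := by
      rw [← integral_re hP h0 h1 hn, ← intervalIntegral.integral_sub
        (i1.intervalIntegrable _ _) (i2.intervalIntegrable _ _)]
      refine intervalIntegral.integral_congr fun θ _ => ?_
      push_cast
      ring
    have h3 : ‖∫ θ in (0 : ℝ)..2 * Real.pi, Complex.exp (-((n : ℂ) * θ * Complex.I)) *
        ((Kr r θ * (P (circleMap 0 ρ θ)).re : ℝ) : ℂ)‖ ≤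
        2 * Real.pi * ((1 - r) / (1 + r) * (P ((ρ * r : ℝ) : ℂ)).re) := by
      rw [← integral_Kr hP h0 h1 hr0 hr1]
      refine (intervalIntegral.norm_integral_le_integral_norm Real.two_pi_pos.le).trans_eq ?_
      refine intervalIntegral.integral_congr fun θ _ => ?_
      rw [norm_mul, norm_exp_neg_mul, one_mul, Complex.norm_real, Real.norm_of_nonneg
        (mul_nonneg (Kr_nonneg _ _) (hre _ (circleMap_mem_ball' h0 h1 θ)))]
    have hπ := Real.pi_pos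
    have hninv : ‖(2 * Real.pi : ℂ)⁻¹‖ = (2 * Real.pi)⁻¹ := by
      rw [norm_inv, norm_mul, Complex.norm_real, Real.norm_of_nonneg hπ.le]
      simp
    rw [h2, norm_mul, hninv]
    have h4 : ‖(Real.pi : ℂ) * (tcoeff P n * ρ ^ n)‖ = Real.pi * (‖tcoeff P n‖ * ρ ^ n) := by
      rw [norm_mul, norm_mul, norm_pow, Complex.norm_real, Complex.norm_real,
        Real.norm_of_nonneg hπ.le, Real.norm_of_nonneg h0.le]
    have h5 := norm_sub_norm_le ((Real.pi : ℂ) * (tcoeff P n * ρ ^ n))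
      (∫ θ in (0 : ℝ)..2 * Real.pi, Complex.exp (-((n : ℂ) * θ * Complex.I)) *
        ((Kr r θ * (P (circleMap 0 ρ θ)).re : ℝ) : ℂ))
    rw [h4] at h5
    have h6 := h5.trans' (sub_le_sub_left h3 _)
    have h7 := mul_le_mul_of_nonneg_left h6 (inv_nonneg.2 Real.two_pi_pos.le)
    refine le_trans (le_of_eq ?_) h7
    field_simp
  -- the limit
  have hev : ∀ᶠ ρ in 𝓝[<] (1 : ℝ), ∀ n ∈ S,
      ε / 2 < ‖tcoeff P n‖ * ρ ^ n / 2 - (1 - r) / (1 + r) * (P ((ρ * r : ℝ) : ℂ)).re := by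
    rw [Finset.eventually_all]
    intro n hn
    have hrb : (r : ℂ) ∈ ball (0 : ℂ) 1 := by
      rw [mem_ball_zero_iff, Complex.norm_real, Real.norm_of_nonneg hr0.le]
      exact hr1
    have hPc : ContinuousAt P (r : ℂ) :=
      (hP.differentiableAt (isOpen_ball.mem_nhds hrb)).continuousAt
    have h2 : ContinuousAt (fun ρ : ℝ => P ((ρ * r : ℝ) : ℂ)) 1 := by
      have h3 : ContinuousAt (fun ρ : ℝ => ((ρ * r : ℝ) : ℂ)) 1 :=
        (Complex.continuous_ofReal.comp (continuous_id.mul continuous_const)).continuousAt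
      refine ContinuousAt.comp (g := P) ?_ h3
      simpa using hPc
    have h3 : ContinuousAt (fun ρ : ℝ => ‖tcoeff P n‖ * ρ ^ n / 2 -
        (1 - r) / (1 + r) * (P ((ρ * r : ℝ) : ℂ)).re) 1 := by
      refine ContinuousAt.sub ?_ (continuousAt_const.mul (Complex.continuous_re.continuousAt.comp h2))
      exact ((continuous_const.mul (continuous_pow n)).div_const 2).continuousAt
    have h4 := (hS hn).2
    have h5 : ε / 2 < ‖tcoeff P n‖ * 1 ^ n / 2 - (1 - r) / (1 + r) * (P ((1 * r : ℝ) : ℂ)).re := by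
      rw [one_pow, one_mul, ← hκ]
      linarith
    exact (h3.eventually (lt_mem_nhds h5)).filter_mono nhdsWithin_le_nhds
  obtain ⟨ρ, hρ1, hρ2⟩ := (hev.and (Ioo_mem_nhdsLT (show (0 : ℝ) < 1 by norm_num))).exists
  have hpar := parseval_le (v := fun θ => (1 - Kr r θ) * (P (circleMap 0 ρ θ)).re)
    (((continuous_const.sub (Kr_cont hr0 hr1))).mul
      (Complex.continuous_re.comp (continuous_circle hP hρ2.1 hρ2.2)))
    (v_bound hρ2.1 hρ2.2 hr0 hr1 hre hC) S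
  have hsum : (N : ℝ) * (ε / 2) ^ 2 ≤ M ^ 2 := by
    refine le_trans ?_ hpar
    rw [← hScard, ← nsmul_eq_mul]
    refine Finset.card_nsmul_le_sum _ _ _ fun n hn => ?_
    refine pow_le_pow_left₀ (by positivity) ?_ 2
    exact (hρ1 n hn).le.trans (hlow ρ hρ2.1 hρ2.2 n (hS hn).1)
  rw [div_lt_iff₀ (by positivity)] at hN
  linarith

end Pool.Agent.MobConv
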