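import Mathlib
import Pool.Agent.Lib.MP_4b1e7e_an.Asy.Mass

/-!
# The upper bound for the limes superior of the coefficients
-/

set_option autoImplicit false

namespace Pool.Agent.MobConv

open Metric Filter Topology Set

/-! ### Schwarz-Pick at a real point -/

theorem phi_mem {r : ℝ} (hr0 : 0 < r) (hr1 : r < 1) {z : ℂ} (hz : z ∈ ball (0 : ℂ) 1) :
    1 + (r : ℂ) * z ≠ 0 ∧ (z + r) / (1 + r * z) ∈ ball (0 : ℂ) 1 := by
  rw [mem_ball_zero_iff] at hz
  have hne : 1 + (r : ℂ) * z ≠ 0 := by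
    intro h
    have h1 : (r : ℂ) * z = -1 := by linear_combination h
    have h2 : ‖(r : ℂ) * z‖ = 1 := by rw [h1]; simp
    rw [norm_mul, Complex.norm_real, Real.norm_of_nonneg hr0.le] at h2
    have := norm_nonneg z
    nlinarith
  refine ⟨hne, ?_⟩
  have hpos : 0 < Complex.normSq (1 + (r : ℂ) * z) := Complex.normSq_pos.2 hne
  rw [mem_ball_zero_iff]
  have h3 : ‖(z + r) / (1 + r * z)‖ ^ 2 < 1 := by
    rw [← Complex.normSq_eq_norm_sq, Complex.normSq_div, div_lt_one hpos]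
    have hz2 : z.re ^ 2 + z.im ^ 2 < 1 := by
      have h4 : ‖z‖ ^ 2 < 1 := by
        have := norm_nonneg z
        nlinarith
      rw [← Complex.normSq_eq_norm_sq, Complex.normSq_apply] at h4
      nlinarith
    simp only [Complex.normSq_apply, Complex.add_re, Complex.add_im, Complex.ofReal_re,
      Complex.ofReal_im, Complex.one_re, Complex.one_im, Complex.re_ofReal_mul,
      Complex.im_ofReal_mul]
    have h5 : (1 - r ^ 2) * (1 - (z.re ^ 2 + z.im ^ 2)) > 0 :=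
      mul_pos (by nlinarith) (by linarith)
    nlinarith
  have := norm_nonneg ((z + r) / (1 + r * z))
  nlinarith

theorem schwarz_pick {P : ℂ → ℂ} (hP : DifferentiableOn ℂ P (ball 0 1))
    (hre : ∀ z ∈ ball (0 : ℂ) 1, 0 ≤ (P z).re) {r : ℝ} (hr0 : 0 < r) (hr1 : r < 1) :
    ‖deriv P (r : ℂ)‖ * (1 - r ^ 2) ≤ 2 * (P r).re := by
  set φ : ℂ → ℂ := fun z => (z + r) / (1 + r * z) with hφ
  have hd : DifferentiableOn ℂ (fun z => P (φ z)) (ball 0 1) := by
    intro z hz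
    have h1 := phi_mem hr0 hr1 hz
    have h2 : DifferentiableAt ℂ φ z :=
      (differentiableAt_id.add_const _).div ((differentiableAt_id.const_mul _).const_add 1) h1.1
    exact (DifferentiableAt.comp (g := P) z
      (hP.differentiableAt (isOpen_ball.mem_nhds h1.2)) h2).differentiableWithinAt
  have h1 := caratheodory hd (fun z hz => hre _ (phi_mem hr0 hr1 hz).2) (n := 1) le_rfl
  have hφ0 : φ 0 = r := by simp [hφ]
  have hrb : (r : ℂ) ∈ ball (0 : ℂ) 1 := by
    rw [mem_ball_zero_iff, Complex.norm_real, Real.norm_of_nonneg hr0.le]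
    exact hr1
  have hφd : HasDerivAt φ ((1 - r ^ 2 : ℝ) : ℂ) 0 := by
    have e1 : HasDerivAt (fun z : ℂ => z + (r : ℂ)) 1 0 := (hasDerivAt_id (0 : ℂ)).add_const _
    have e2 : HasDerivAt (fun z : ℂ => 1 + (r : ℂ) * z) ((r : ℂ) * 1) 0 :=
      ((hasDerivAt_id (0 : ℂ)).const_mul _).const_add 1
    have e3 := e1.fun_div e2 (by simp)
    refine e3.congr_deriv ?_
    simp
    ring
  have hPd : HasDerivAt P (deriv P r) (φ 0) := by
    rw [hφ0]
    exact (hP.differentiableAt (isOpen_ball.mem_nhds hrb)).hasDerivAt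
  have hcomp : HasDerivAt (fun z => P (φ z)) (deriv P r * ((1 - r ^ 2 : ℝ) : ℂ)) 0 :=
    HasDerivAt.comp (h₂ := P) (h := φ) 0 hPd hφd
  rw [tcoeff_succ, tcoeff_zero, hcomp.deriv] at h1
  simp only [Nat.cast_zero, zero_add, div_one] at h1
  rw [norm_mul, Complex.norm_real, Real.norm_of_nonneg (by nlinarith)] at h1
  rw [hφ0] at h1
  exact h1

/-! ### rotation of Taylor coefficients -/

theorem norm_tcoeff_rot {P : ℂ → ℂ} (hP : DifferentiableOn ℂ P (ball 0 1)) {e : ℂ}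
    (he : ‖e‖ = 1) (n : ℕ) : ‖tcoeff (fun z => P (e * z)) n‖ = ‖tcoeff P n‖ := by
  have hPa : ContDiffAt ℂ n P (e * 0) := by
    rw [mul_zero]
    exact (analyticAt_of_diff hP).contDiffAt
  have h1 : ∀ n : ℕ, ∀ P : ℂ → ℂ, DifferentiableOn ℂ P (ball 0 1) →
      tcoeff (fun z => P (e * z)) n = e ^ n * tcoeff P n := by
    intro n
    induction n with
    | zero =>
      intro P _
      rw [tcoeff_zero, tcoeff_zero]
      simp
    | succ n ih =>
      intro P hP
      rw [tcoeff_succ, tcoeff_succ]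
      have hd : ∀ z ∈ ball (0 : ℂ) 1, deriv (fun z => P (e * z)) z = e * deriv P (e * z) := by
        intro z hz
        have h1 : HasDerivAt P (deriv P (e * z)) (e * z) :=
          (hP.differentiableAt (isOpen_ball.mem_nhds (mul_mem_ball he hz))).hasDerivAt
        have h2 : HasDerivAt (fun z : ℂ => e * z) (e * 1) z := (hasDerivAt_id z).const_mul e
        have h3 := (HasDerivAt.comp (h₂ := P) (h := fun z : ℂ => e * z) z h1 h2).deriv
        rw [Function.comp_def] at h3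
        rw [h3]
        ring
      have hP' : DifferentiableOn ℂ (fun z => e * deriv P z) (ball 0 1) := by
        intro z hz
        exact ((hP.analyticAt (isOpen_ball.mem_nhds hz)).deriv.differentiableAt.const_mul
          e).differentiableWithinAt
      rw [tcoeff_congr hd, ih (fun z => e * deriv P z) hP']
      have h4 : tcoeff (fun z => e * deriv P z) n = e * tcoeff (deriv P) n := by
        unfold tcoeff
        rw [iteratedDeriv_const_mul_field]
        ring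
      rw [h4, pow_succ]
      ring
  rw [h1 n P hP, norm_mul, norm_pow, he, one_pow, one_mul]

/-! ### the boundary point -/

variable {f : ℂ → ℂ}

/-- The inverse of a normalised convex map is Lipschitz. -/
theorem IsConvexMap.lipschitz_inv (hf : IsConvexMap f) {x y : ℂ} (hx : x ∈ ball (0 : ℂ) 1)
    (hy : y ∈ ball (0 : ℂ) 1) : ‖x - y‖ ≤ 4 * ‖f x - f y‖ := by
  obtain ⟨g, hg1, hg2⟩ := hf.exists_inv
  have h1 : ∀ u ∈ f '' ball 0 1, HasDerivWithinAt g (deriv f (g u))⁻¹ (f '' ball 0 1) u := by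
    rintro _ ⟨z, hz, rfl⟩
    rw [hg1 z hz]
    exact (hg2 z hz).hasDerivWithinAt
  have h2 : ∀ u ∈ f '' ball 0 1, ‖(deriv f (g u))⁻¹‖ ≤ 4 := by
    rintro _ ⟨z, hz, rfl⟩
    rw [hg1 z hz, norm_inv]
    have h3 := hf.deriv_ge hz
    rw [inv_le_comm₀ (by linarith) (by norm_num)]
    linarith
  have h3 := hf.convex.norm_image_sub_le_of_norm_hasDerivWithin_le h1 h2
    ⟨y, hy, rfl⟩ ⟨x, hx, rfl⟩
  rwa [hg1 x hx, hg1 y hy] at h3

theorem IsConvexMap.exists_bdry (hf : IsConvexMap f) {w : ℂ} (hw : w ∉ f '' ball 0 1) :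
    ∃ ζ : ℂ, ‖ζ‖ = 1 ∧ ∃ C : ℝ, ∀ z ∈ ball (0 : ℂ) 1, ‖ζ - z‖ ≤ C * ‖w - f z‖ := by
  by_cases hcl : w ∈ closure (f '' ball 0 1)
  · obtain ⟨u, hu, hulim⟩ := mem_closure_iff_seq_limit.1 hcl
    choose z hz hzu using hu
    have hzc : ∀ n, z n ∈ closedBall (0 : ℂ) 1 := fun n => ball_subset_closedBall (hz n)
    obtain ⟨ζ, hζ, φ, hφ, hφlim⟩ := (isCompact_closedBall (0 : ℂ) 1).tendsto_subseq hzc
    have hulim' : Tendsto (fun n => f (z (φ n))) atTop (𝓝 w) := by
      have := hulim.comp hφ.tendsto_atTop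
      refine this.congr fun n => ?_
      exact (hzu _).symm
    have hbd : ∀ y ∈ ball (0 : ℂ) 1, ‖ζ - y‖ ≤ 4 * ‖w - f y‖ := by
      intro y hy
      have h1 : Tendsto (fun n => ‖z (φ n) - y‖) atTop (𝓝 ‖ζ - y‖) :=
        (hφlim.sub_const y).norm
      have h2 : Tendsto (fun n => 4 * ‖f (z (φ n)) - f y‖) atTop (𝓝 (4 * ‖w - f y‖)) :=
        ((hulim'.sub_const (f y)).norm).const_mul 4
      exact le_of_tendsto_of_tendsto' h1 h2 fun n => hf.lipschitz_inv (hz _) hy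
    refine ⟨ζ, ?_, 4, hbd⟩
    rw [mem_closedBall_zero_iff] at hζ
    refine le_antisymm hζ (not_lt.1 fun hlt => hw ?_)
    have hζb : ζ ∈ ball (0 : ℂ) 1 := by rwa [mem_ball_zero_iff]
    have h3 : Tendsto (fun n => f (z (φ n))) atTop (𝓝 (f ζ)) :=
      ((hf.analyticAt hζb).continuousAt.tendsto).comp hφlim
    exact ⟨ζ, hζb, tendsto_nhds_unique h3 hulim'⟩
  · obtain ⟨d, hd, hdb⟩ := Metric.isOpen_iff.1 isClosed_closure.isOpen_compl w hcl
    refine ⟨1, norm_one, 2 / d, fun z hz => ?_⟩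
    have h1 : d ≤ ‖w - f z‖ := by
      by_contra hlt
      rw [not_le] at hlt
      have h2 : f z ∈ ball w d := by rwa [mem_ball, dist_eq_norm, norm_sub_rev]
      exact hdb h2 (subset_closure ⟨z, hz, rfl⟩)
    have h2 : ‖(1 : ℂ) - z‖ ≤ 2 := by
      rw [mem_ball_zero_iff] at hz
      calc ‖(1 : ℂ) - z‖ ≤ ‖(1 : ℂ)‖ + ‖z‖ := norm_sub_le _ _
        _ ≤ 2 := by rw [norm_one]; linarith
    calc ‖(1 : ℂ) - z‖ ≤ 2 := h2
      _ = 2 / d * d := by field_simp
      _ ≤ 2 / d * ‖w - f z‖ := mul_le_mul_of_nonneg_left h1 (by positivity)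

/-- The supporting line. -/
theorem exists_support {D : Set ℂ} (hD : IsOpen D) (hc : Convex ℝ D) (hne : D.Nonempty) {w : ℂ}
    (hw : w ∉ D) : ∃ e : ℂ, ‖e‖ = 1 ∧ ∀ z ∈ D, 0 < (e * (w - z)).re := by
  obtain ⟨φ, hφ⟩ := geometric_hahn_banach_open_point hc hD hw
  have hφe : ∀ z : ℂ, φ z = z.re * φ 1 + z.im * φ Complex.I := by
    intro z
    have h1 : z = z.re • (1 : ℂ) + z.im • Complex.I := by
      apply Complex.ext <;> simp
    conv_lhs => rw [h1]
    rw [map_add, map_smul, map_smul, smul_eq_mul, smul_eq_mul]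
  set c : ℂ := ⟨φ 1, -φ Complex.I⟩ with hc'
  have hcz : ∀ z : ℂ, (c * z).re = φ z := by
    intro z
    rw [hφe, Complex.mul_re]
    ring
  have hc0 : c ≠ 0 := by
    rintro h0
    obtain ⟨z, hz⟩ := hne
    have h1 := hφ z hz
    rw [← hcz, ← hcz, h0, zero_mul, zero_mul] at h1
    exact lt_irrefl _ h1
  have hcn : 0 < ‖c‖ := norm_pos_iff.2 hc0
  refine ⟨((‖c‖⁻¹ : ℝ) : ℂ) * c, ?_, fun z hz => ?_⟩
  · rw [norm_mul, Complex.norm_real, Real.norm_of_nonneg (by positivity), inv_mul_cancel₀ hcn.ne']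
  · rw [mul_assoc, Complex.re_ofReal_mul, hcz, map_sub]
    have := hφ z hz
    exact mul_pos (by positivity) (by linarith)

/-! ### the bound -/

theorem IsConvexMap.hat_eq (hf : IsConvexMap f) {w : ℂ} (hw : w ∉ f '' ball 0 1) {e : ℂ}
    (he : ‖e‖ = 1) {n : ℕ} (hn : 1 ≤ n) :
    ‖tcoeff (fun z => f z / (1 - f z / w)) n‖ =
      ‖w‖ ^ 2 * ‖tcoeff (fun z => 1 / (e * (w - f z))) n‖ := by
  have he0 : e ≠ 0 := by
    rintro rfl
    simp at he
  have hw0 : w ≠ 0 := by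
    rintro rfl
    exact hw hf.zero_mem
  have hwf : ∀ z ∈ ball (0 : ℂ) 1, w - f z ≠ 0 := by
    intro z hz h
    exact hw ⟨z, hz, (sub_eq_zero.1 h).symm⟩
  have h1 : ∀ z ∈ ball (0 : ℂ) 1, f z / (1 - f z / w) =
      -w + (e * w ^ 2) * (1 / (e * (w - f z))) := by
    intro z hz
    have h2 := hwf z hz
    have h3 : 1 - f z / w = (w - f z) / w := by field_simp
    rw [h3]
    field_simp
    ring
  rw [tcoeff_congr h1]
  obtain ⟨m, rfl⟩ : ∃ m, n = m + 1 := ⟨n - 1, by omega⟩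
  have hPa : AnalyticAt ℂ (fun z => 1 / (e * (w - f z))) 0 := by
    have hfa : AnalyticAt ℂ f 0 := hf.analyticAt (by simp)
    refine analyticAt_const.div (analyticAt_const.mul (analyticAt_const.sub hfa)) ?_
    exact mul_ne_zero he0 (hwf 0 (by simp))
  have h4 : tcoeff (fun z => -w + (e * w ^ 2) * (1 / (e * (w - f z)))) (m + 1) =
      (e * w ^ 2) * tcoeff (fun z => 1 / (e * (w - f z))) (m + 1) := by
    have h5 := tcoeff_const_succ (-w) m
    have hPc : AnalyticAt ℂ (fun z => (e * w ^ 2) * (1 / (e * (w - f z)))) 0 :=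
      analyticAt_const.mul hPa
    have hcc : AnalyticAt ℂ (fun _ : ℂ => -w) 0 := analyticAt_const
    unfold tcoeff at h5 ⊢
    rw [iteratedDeriv_fun_add hcc.contDiffAt hPc.contDiffAt, iteratedDeriv_const_mul_field,
      add_div, h5]
    ring
  rw [h4, norm_mul, norm_mul, he, norm_pow, one_mul]

theorem IsConvexMap.upper (hf : IsConvexMap f) {w : ℂ} (hw : w ∉ f '' ball 0 1) {ε : ℝ}
    (hε : 0 < ε) :
    ∀ᶠ n in atTop, ‖tcoeff (fun z => f z / (1 - f z / w)) n‖ ≤ Real.pi ^ 2 / 4 + ε := by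
  have hw0 : w ≠ 0 := by
    rintro rfl
    exact hw hf.zero_mem
  have hwn : 0 < ‖w‖ := norm_pos_iff.2 hw0
  have hwf : ∀ z ∈ ball (0 : ℂ) 1, w - f z ≠ 0 := by
    intro z hz h
    exact hw ⟨z, hz, (sub_eq_zero.1 h).symm⟩
  obtain ⟨e, he, hsup⟩ := exists_support hf.isOpen_image hf.convex ⟨_, hf.zero_mem⟩ hw
  obtain ⟨ζ, hζ, C, hC⟩ := hf.exists_bdry hw
  have he0 : e ≠ 0 := by
    rintro rfl
    simp at he
  set P0 : ℂ → ℂ := fun z => 1 / (e * (w - f z)) with hP0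
  have hP0d : DifferentiableOn ℂ P0 (ball 0 1) := by
    intro z hz
    have h1 := (hf.analyticAt hz).differentiableAt
    exact ((differentiableAt_const _).div ((h1.const_sub w).const_mul e)
      (mul_ne_zero he0 (hwf z hz))).differentiableWithinAt
  have hP0re : ∀ z ∈ ball (0 : ℂ) 1, 0 < (P0 z).re := by
    intro z hz
    have h1 := hsup _ ⟨z, hz, rfl⟩
    have h2 : (P0 z).re = (e * (w - f z)).re / Complex.normSq (e * (w - f z)) := by
      rw [hP0]
      simp only [one_div, Complex.inv_re]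
    rw [h2]
    exact div_pos h1 (Complex.normSq_pos.2 (mul_ne_zero he0 (hwf z hz)))
  have hP0n : ∀ z, ‖P0 z‖ = 1 / ‖w - f z‖ := by
    intro z
    rw [hP0]
    simp only [norm_div, norm_one, norm_mul, he, one_mul]
  set P : ℂ → ℂ := fun z => P0 (ζ * z) with hP
  have hPd : DifferentiableOn ℂ P (ball 0 1) := by
    intro z hz
    exact (DifferentiableAt.comp (g := P0) z (hP0d.differentiableAt
      (isOpen_ball.mem_nhds (mul_mem_ball hζ hz))) (by fun_prop)).differentiableWithinAt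
  have hPre : ∀ z ∈ ball (0 : ℂ) 1, 0 ≤ (P z).re := fun z hz =>
    (hP0re _ (mul_mem_ball hζ hz)).le
  have hPC : ∀ z ∈ ball (0 : ℂ) 1, ‖1 - z‖ * ‖P z‖ ≤ C := by
    intro z hz
    have hz' := mul_mem_ball hζ hz
    have h1 := hC _ hz'
    have h2 : ‖ζ - ζ * z‖ = ‖1 - z‖ := by
      have : ζ - ζ * z = ζ * (1 - z) := by ring
      rw [this, norm_mul, hζ, one_mul]
    rw [h2] at h1
    have h3 : 0 < ‖w - f (ζ * z)‖ := norm_pos_iff.2 (hwf _ hz')
    show ‖1 - z‖ * ‖P0 (ζ * z)‖ ≤ C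
    rw [hP0n, mul_one_div, div_le_iff₀ h3]
    exact h1
  -- the level `λ`
  set l : ℝ := Real.pi ^ 2 / (4 * ‖w‖ ^ 2) + ε / (2 * ‖w‖ ^ 2) with hl
  have hπ := Real.pi_pos
  have hlpos : 0 < l := by positivity
  have key : ∃ r : ℝ, 0 < r ∧ r < 1 ∧ 2 * ((1 - r) / (1 + r) * (P r).re) < l := by
    by_contra hcon
    push Not at hcon
    have hrb : ∀ r : ℝ, 0 < r → r < 1 → (r : ℂ) ∈ ball (0 : ℂ) 1 := by
      intro r hr0 hr1
      rw [mem_ball_zero_iff, Complex.norm_real, Real.norm_of_nonneg hr0.le]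
      exact hr1
    -- upper bound for `|w - f|`
    have h1 : ∀ r : ℝ, 0 < r → r < 1 → ‖w - f (ζ * r)‖ ≤ 2 * (1 - r) / l := by
      intro r hr0 hr1
      have h2 := hcon r hr0 hr1
      have h3 : (P r).re ≤ 1 / ‖w - f (ζ * r)‖ := by
        rw [← hP0n]
        exact Complex.re_le_norm _
      have h4 : 0 < ‖w - f (ζ * r)‖ := norm_pos_iff.2 (hwf _ (mul_mem_ball hζ (hrb r hr0 hr1)))
      have h5 : l ≤ 2 * (1 - r) / ‖w - f (ζ * r)‖ := by
        have h6 : (1 - r) / (1 + r) ≤ 1 - r := by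
          rw [div_le_iff₀ (by linarith)]
          nlinarith
        have h7 : 0 ≤ (P r).re := hPre _ (hrb r hr0 hr1)
        calc l ≤ 2 * ((1 - r) / (1 + r) * (P r).re) := h2
          _ ≤ 2 * ((1 - r) * (1 / ‖w - f (ζ * r)‖)) := by
              have h8 := mul_le_mul h6 h3 h7 (by linarith : (0 : ℝ) ≤ 1 - r)
              linarith
          _ = 2 * (1 - r) / ‖w - f (ζ * r)‖ := by ring
      rw [le_div_iff₀ h4] at h5
      rw [le_div_iff₀ hlpos]
      linarith
    -- the Schwarz-Pick bound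
    have h2 : ∀ r : ℝ, 0 < r → r < 1 → l * ‖f (ζ * r)‖ ^ 2 * (1 + r) ^ 2 ≤ Real.pi ^ 2 * r ^ 2 := by
      intro r hr0 hr1
      have hb := hrb r hr0 hr1
      have hb' := mul_mem_ball hζ hb
      have hsp := schwarz_pick hPd hPre hr0 hr1
      set U := (P r).re with hU
      have hU0 : 0 < U := hP0re _ hb'
      have hwz : 0 < ‖w - f (ζ * r)‖ := norm_pos_iff.2 (hwf _ hb')
      have hUle : U * ‖w - f (ζ * r)‖ ≤ 1 := by
        have h3 : U ≤ 1 / ‖w - f (ζ * r)‖ := by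
          rw [← hP0n]
          exact Complex.re_le_norm _
        rwa [le_div_iff₀ hwz] at h3
      -- derivative of `P`
      have hder : ‖deriv P (r : ℂ)‖ * ‖w - f (ζ * r)‖ ^ 2 = ‖deriv f (ζ * r)‖ := by
        have e1 : HasDerivAt (fun z : ℂ => ζ * z) (ζ * 1) (r : ℂ) :=
          (hasDerivAt_id (r : ℂ)).const_mul ζ
        have e2 : HasDerivAt f (deriv f (ζ * r)) (ζ * r) :=
          (hf.analyticAt hb').differentiableAt.hasDerivAt
        have e3 : HasDerivAt (fun z => f (ζ * z)) (deriv f (ζ * r) * (ζ * 1)) (r : ℂ) :=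
          HasDerivAt.comp (h₂ := f) (h := fun z : ℂ => ζ * z) (r : ℂ) e2 e1
        have e4 := (e3.const_sub w).const_mul e
        have e5 := (hasDerivAt_const (r : ℂ) (1 : ℂ)).fun_div e4
          (mul_ne_zero he0 (hwf _ hb'))
        have e6 : deriv P (r : ℂ) = _ := e5.deriv
        rw [e6]
        have e7 : (0 * (e * (w - f (ζ * (r : ℂ)))) - 1 * (e * -(deriv f (ζ * r) * (ζ * 1)))) =
            e * ζ * deriv f (ζ * r) := by ring
        rw [e7, norm_div, norm_mul, norm_mul, norm_pow, norm_mul, he, hζ]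
        field_simp
      have hkey := hf.key hb'
      have hzn : ‖ζ * (r : ℂ)‖ = r := by
        rw [norm_mul, hζ, one_mul, Complex.norm_real, Real.norm_of_nonneg hr0.le]
      rw [hzn] at hkey
      -- combination
      have h3 : 4 * ‖f (ζ * r)‖ ^ 2 * (1 - r ^ 2) * U ≤ 2 * Real.pi ^ 2 * r ^ 2 := by
        have h1r : 0 < 1 - r ^ 2 := by nlinarith
        have a1 : U ^ 2 * ‖w - f (ζ * r)‖ ^ 2 ≤ 1 := by
          have := pow_le_pow_left₀ (by positivity) hUle 2
          rwa [mul_pow, one_pow] at this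
        -- `‖f'‖ (1 - r^2) ≤ 2 U ‖w - f‖^2`
        have a2 : ‖deriv f (ζ * r)‖ * (1 - r ^ 2) ≤ 2 * U * ‖w - f (ζ * r)‖ ^ 2 := by
          rw [← hder]
          have := mul_le_mul_of_nonneg_right hsp (sq_nonneg ‖w - f (ζ * r)‖)
          linarith
        have a3 : ‖deriv f (ζ * r)‖ * (1 - r ^ 2) * U ≤ 2 := by
          calc ‖deriv f (ζ * r)‖ * (1 - r ^ 2) * U ≤ 2 * U * ‖w - f (ζ * r)‖ ^ 2 * U :=
                mul_le_mul_of_nonneg_right a2 hU0.le
            _ = 2 * (U ^ 2 * ‖w - f (ζ * r)‖ ^ 2) := by ring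
            _ ≤ 2 := by linarith
        have a4 : 0 ≤ (1 - r ^ 2) * U := by positivity
        have a5 := mul_le_mul_of_nonneg_right hkey a4
        have a6 : 0 ≤ Real.pi ^ 2 / 4 * r ^ 2 := by positivity
        have a7 := mul_le_mul_of_nonneg_left a3 a6
        nlinarith
      have h4 := hcon r hr0 hr1
      have h5 : l * (1 + r) ≤ 2 * (1 - r) * U := by
        have h6 : 2 * ((1 - r) / (1 + r) * U) = 2 * (1 - r) * U / (1 + r) := by ring
        rw [h6, le_div_iff₀ (by linarith)] at h4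
        exact h4
      have h6 : 0 ≤ ‖f (ζ * r)‖ ^ 2 * (1 + r) := by positivity
      have h7 := mul_le_mul_of_nonneg_left h5 h6
      nlinarith
    -- the limit
    have hlim1 : Tendsto (fun r : ℝ => ‖w - f (ζ * r)‖) (𝓝[<] 1) (𝓝 0) := by
      have h3 : Tendsto (fun r : ℝ => 2 * (1 - r) / l) (𝓝[<] 1) (𝓝 (2 * (1 - 1) / l)) :=
        ((continuous_const.mul (continuous_const.sub continuous_id)).div_const l).continuousAt.mono_left
          nhdsWithin_le_nhds
      rw [sub_self, mul_zero, zero_div] at h3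
      refine squeeze_zero' (Eventually.of_forall fun _ => norm_nonneg _) ?_ h3
      filter_upwards [Ioo_mem_nhdsLT (show (0 : ℝ) < 1 by norm_num)] with r hr
      exact h1 r hr.1 hr.2
    have hlim2 : Tendsto (fun r : ℝ => f (ζ * r)) (𝓝[<] 1) (𝓝 w) := by
      rw [tendsto_iff_norm_sub_tendsto_zero]
      refine hlim1.congr fun r => ?_
      rw [norm_sub_rev]
    have hid : Tendsto (fun r : ℝ => r) (𝓝[<] 1) (𝓝 1) := tendsto_id.mono_left nhdsWithin_le_nhds
    have hlim3 : Tendsto (fun r : ℝ => l * ‖f (ζ * r)‖ ^ 2 * (1 + r) ^ 2) (𝓝[<] 1)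
        (𝓝 (l * ‖w‖ ^ 2 * (1 + 1) ^ 2)) :=
      (((hlim2.norm).pow 2).const_mul l).mul ((hid.const_add 1).pow 2)
    have hlim4 : Tendsto (fun r : ℝ => Real.pi ^ 2 * r ^ 2) (𝓝[<] 1)
        (𝓝 (Real.pi ^ 2 * 1 ^ 2)) := (hid.pow 2).const_mul _
    have hfin := le_of_tendsto_of_tendsto hlim3 hlim4 (by
      filter_upwards [Ioo_mem_nhdsLT (show (0 : ℝ) < 1 by norm_num)] with r hr
      exact h2 r hr.1 hr.2)
    have h3 : l * ‖w‖ ^ 2 = Real.pi ^ 2 / 4 + ε / 2 := by
      rw [hl]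
      field_simp
    rw [h3] at hfin
    nlinarith
  obtain ⟨r, hr0, hr1, hrl⟩ := key
  have hmass := mass hPd hPre hPC hr0 hr1 (show 0 < ε / (2 * ‖w‖ ^ 2) by positivity)
  filter_upwards [hmass, eventually_ge_atTop 1] with n hn hn1
  rw [hf.hat_eq hw he hn1]
  have h1 : ‖tcoeff P n‖ = ‖tcoeff P0 n‖ := norm_tcoeff_rot hP0d hζ n
  rw [h1] at hn
  have h2 : ‖tcoeff P0 n‖ ≤ l + ε / (2 * ‖w‖ ^ 2) := by linarith
  calc ‖w‖ ^ 2 * ‖tcoeff P0 n‖ ≤ ‖w‖ ^ 2 * (l + ε / (2 * ‖w‖ ^ 2)) :=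
        mul_le_mul_of_nonneg_left h2 (by positivity)
    _ = Real.pi ^ 2 / 4 + ε := by
        rw [hl]
        field_simp
        ring

end Pool.Agent.MobConv
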