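import Mathlib
import Pool.Agent.Lib.MP_4b1e7e_an.Asy.Upper

/-!
# Julia's lemma and the existence of the limit of the coefficients
-/

set_option autoImplicit false

namespace Pool.Agent.MobConv

open Metric Filter Topology Set

variable {P : ℂ → ℂ}

theorem NN_le_sq {ρ θ s : ℝ} (hs : 0 ≤ s) (hρ : 0 < ρ) : NN ρ θ s ≤ (ρ + s) ^ 2 := by
  have h1 := circle_sq ρ θ
  have h2 : -ρ ≤ (circleMap 0 ρ θ).re := by
    have h3 := Complex.abs_re_le_norm (circleMap 0 ρ θ)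
    rw [norm_circleMap_zero, abs_of_pos hρ] at h3
    exact (abs_le.1 h3).1
  unfold NN
  nlinarith

/-- Harnack's inequality at a positive real point. -/
theorem harnack_real (hP : DifferentiableOn ℂ P (ball 0 1))
    (hre : ∀ z ∈ ball (0 : ℂ) 1, 0 ≤ (P z).re) {s : ℝ} (hs : 0 < s) (hs1 : s < 1) :
    (1 - s) / (1 + s) * (P 0).re ≤ (P s).re := by
  have key : ∀ ρ : ℝ, s < ρ → ρ < 1 → (ρ - s) / (ρ + s) * (P 0).re ≤ (P s).re := by
    intro ρ hsρ h1
    have h0 : 0 < ρ := hs.trans hsρ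
    have hc := Complex.continuous_re.comp (continuous_circle hP h0 h1)
    have hNc : Continuous fun θ : ℝ => NN ρ θ s := NN_cont2 ρ s
    have hPc : Continuous fun θ : ℝ => (ρ ^ 2 - s ^ 2) / NN ρ θ s :=
      continuous_const.div hNc fun θ => (NN_pos hs.le hsρ).ne'
    have i1 : Continuous fun θ : ℝ => (ρ ^ 2 - s ^ 2) / NN ρ θ s * (P (circleMap 0 ρ θ)).re :=
      hPc.mul hc
    have i2 : Continuous fun θ : ℝ => (ρ - s) / (ρ + s) * (P (circleMap 0 ρ θ)).re :=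
      continuous_const.mul hc
    have h2 : ∫ θ in (0 : ℝ)..2 * Real.pi, (ρ - s) / (ρ + s) * (P (circleMap 0 ρ θ)).re ≤
        ∫ θ in (0 : ℝ)..2 * Real.pi, (ρ ^ 2 - s ^ 2) / NN ρ θ s * (P (circleMap 0 ρ θ)).re := by
      refine intervalIntegral.integral_mono_on Real.two_pi_pos.le
        (i2.intervalIntegrable _ _) (i1.intervalIntegrable _ _) fun θ _ => ?_
      refine mul_le_mul_of_nonneg_right ?_ (hre _ (circleMap_mem_ball' h0 h1 θ))
      have hN := NN_pos (θ := θ) hs.le hsρ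
      rw [div_le_div_iff₀ (by linarith) hN]
      have h3 := NN_le_sq (θ := θ) hs.le h0
      have h4 : 0 ≤ ρ - s := by linarith
      calc (ρ - s) * NN ρ θ s ≤ (ρ - s) * (ρ + s) ^ 2 := mul_le_mul_of_nonneg_left h3 h4
        _ = (ρ ^ 2 - s ^ 2) * (ρ + s) := by ring
    rw [intervalIntegral.integral_const_mul, integral_re_zero hP h0 h1] at h2
    rw [← poisson_re' hP h0 h1 hs hsρ, inv_mul_eq_div, le_div_iff₀ Real.two_pi_pos]
    linarith
  have h4 : Tendsto (fun ρ : ℝ => (ρ - s) / (ρ + s) * (P 0).re) (𝓝[<] 1)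
      (𝓝 ((1 - s) / (1 + s) * (P 0).re)) := by
    have h5 : ContinuousAt (fun ρ : ℝ => (ρ - s) / (ρ + s) * (P 0).re) 1 := by
      refine ContinuousAt.mul (ContinuousAt.div ?_ ?_ (by linarith)) continuousAt_const
      · exact (continuous_id.sub continuous_const).continuousAt
      · exact (continuous_id.add continuous_const).continuousAt
    exact h5.tendsto.mono_left nhdsWithin_le_nhds
  refine le_of_tendsto h4 ?_
  filter_upwards [Ioo_mem_nhdsLT hs1] with ρ hρ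
  exact key ρ hρ.1 hρ.2

/-- Harnack's inequality. -/
theorem harnack (hP : DifferentiableOn ℂ P (ball 0 1))
    (hre : ∀ z ∈ ball (0 : ℂ) 1, 0 ≤ (P z).re) {z : ℂ} (hz : z ∈ ball (0 : ℂ) 1) :
    (1 - ‖z‖) / (1 + ‖z‖) * (P 0).re ≤ (P z).re := by
  rcases eq_or_ne z 0 with rfl | hz0
  · simp
  · obtain ⟨e, he, hze⟩ := exists_polar hz0
    have hzn : ‖z‖ < 1 := by simpa using hz
    have hzp : 0 < ‖z‖ := norm_pos_iff.2 hz0
    have hd : DifferentiableOn ℂ (fun z => P (e * z)) (ball 0 1) := by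
      intro y hy
      exact (DifferentiableAt.comp (g := P) y (hP.differentiableAt
        (isOpen_ball.mem_nhds (mul_mem_ball he hy))) (by fun_prop)).differentiableWithinAt
    have h1 := harnack_real hd (fun y hy => hre _ (mul_mem_ball he hy)) hzp hzn
    rw [mul_zero, ← hze] at h1
    exact h1

/-- Harnack's inequality for two points, one of them real. -/
theorem harnack_two (hP : DifferentiableOn ℂ P (ball 0 1))
    (hre : ∀ z ∈ ball (0 : ℂ) 1, 0 ≤ (P z).re) {r : ℝ} (hr0 : 0 < r) (hr1 : r < 1) {z : ℂ}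
    (hz : z ∈ ball (0 : ℂ) 1) :
    (1 - ‖z‖ ^ 2) * (1 - r ^ 2) * (P r).re ≤ 4 * ‖1 - (r : ℂ) * z‖ ^ 2 * (P z).re := by
  set φ : ℂ → ℂ := fun z => (z + r) / (1 + r * z) with hφ
  have hd : DifferentiableOn ℂ (fun z => P (φ z)) (ball 0 1) := by
    intro z hz
    have h1 := phi_mem hr0 hr1 hz
    have h2 : DifferentiableAt ℂ φ z :=
      (differentiableAt_id.add_const _).div ((differentiableAt_id.const_mul _).const_add 1) h1.1
    exact (DifferentiableAt.comp (g := P) z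
      (hP.differentiableAt (isOpen_ball.mem_nhds h1.2)) h2).differentiableWithinAt
  -- the inverse point
  have hz' : -z ∈ ball (0 : ℂ) 1 := by
    rw [mem_ball_zero_iff] at hz ⊢
    rwa [norm_neg]
  have hzm := phi_mem hr0 hr1 hz'
  have hne : 1 - (r : ℂ) * z ≠ 0 := by
    have := hzm.1
    intro h
    apply this
    linear_combination h
  set y : ℂ := (z - r) / (1 - r * z) with hy
  have hyb : y ∈ ball (0 : ℂ) 1 := by
    have h1 := hzm.2
    have h2 : y = -((-z + r) / (1 + r * -z)) := by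
      rw [hy, ← neg_div]
      congr 1 <;> ring
    rw [h2, mem_ball_zero_iff, norm_neg]
    rwa [mem_ball_zero_iff] at h1
  have hr2 : ((1 - r ^ 2 : ℝ) : ℂ) ≠ 0 := by
    have : (1 - r ^ 2 : ℝ) ≠ 0 := by nlinarith
    exact_mod_cast this
  have hφy : φ y = z := by
    have h1 : z - (r : ℂ) + r * (1 - r * z) = ((1 - r ^ 2 : ℝ) : ℂ) * z := by
      push_cast
      ring
    have h2 : 1 - (r : ℂ) * z + r * (z - r) = ((1 - r ^ 2 : ℝ) : ℂ) := by
      push_cast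
      ring
    have h3 : y + r = ((1 - r ^ 2 : ℝ) : ℂ) * z / (1 - r * z) := by
      rw [← h1, eq_div_iff hne, hy, add_mul, div_mul_cancel₀ _ hne]
    have h4 : 1 + r * y = ((1 - r ^ 2 : ℝ) : ℂ) / (1 - r * z) := by
      rw [← h2, eq_div_iff hne, hy, add_mul, one_mul, mul_assoc, div_mul_cancel₀ _ hne]
    show (y + r) / (1 + r * y) = z
    rw [h3, h4, div_div_div_cancel_right₀ hne, mul_div_assoc, mul_comm, div_mul_cancel₀ _ hr2]
  have hφ0 : φ 0 = r := by simp [hφ]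
  have h1 := harnack hd (fun y hy => hre _ (phi_mem hr0 hr1 hy).2) hyb
  simp only [hφy, hφ0] at h1
  -- the identity for the pseudo-hyperbolic distance
  have hid : (1 - ‖y‖ ^ 2) * ‖1 - (r : ℂ) * z‖ ^ 2 = (1 - ‖z‖ ^ 2) * (1 - r ^ 2) := by
    have h2 : ‖y‖ ^ 2 * ‖1 - (r : ℂ) * z‖ ^ 2 = ‖z - r‖ ^ 2 := by
      rw [← mul_pow, ← norm_mul, hy, div_mul_cancel₀ _ hne]
    rw [sub_mul, one_mul, h2, ← Complex.normSq_eq_norm_sq, ← Complex.normSq_eq_norm_sq,
      ← Complex.normSq_eq_norm_sq]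
    simp only [Complex.normSq_apply, Complex.sub_re, Complex.sub_im, Complex.ofReal_re,
      Complex.ofReal_im, Complex.one_re, Complex.one_im, Complex.re_ofReal_mul,
      Complex.im_ofReal_mul]
    ring
  have hyn : ‖y‖ < 1 := by simpa using hyb
  have hyn0 := norm_nonneg y
  have hPr : 0 ≤ (P r).re := by
    refine hre _ ?_
    rw [mem_ball_zero_iff, Complex.norm_real, Real.norm_of_nonneg hr0.le]
    exact hr1
  have h3 : (1 - ‖y‖ ^ 2) / 4 * (P r).re ≤ (P z).re := by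
    refine le_trans (mul_le_mul_of_nonneg_right ?_ hPr) h1
    rw [div_le_div_iff₀ (by norm_num) (by linarith)]
    have h4 : 0 ≤ (1 - ‖y‖) * ((1 - ‖y‖) * (3 + ‖y‖)) := by
      have : 0 ≤ 1 - ‖y‖ := by linarith
      positivity
    nlinarith
  have h5 := mul_le_mul_of_nonneg_left h3 (show 0 ≤ 4 * ‖1 - (r : ℂ) * z‖ ^ 2 by positivity)
  calc (1 - ‖z‖ ^ 2) * (1 - r ^ 2) * (P r).re =
        4 * ‖1 - (r : ℂ) * z‖ ^ 2 * ((1 - ‖y‖ ^ 2) / 4 * (P r).re) := by
          rw [← hid]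
          ring
    _ ≤ _ := h5

/-- **Julia's lemma** for functions of positive real part. -/
theorem julia (hP : DifferentiableOn ℂ P (ball 0 1))
    (hre : ∀ z ∈ ball (0 : ℂ) 1, 0 ≤ (P z).re) {m : ℝ}
    (hm : ∀ r : ℝ, 0 < r → r < 1 → m ≤ (1 - r) / (1 + r) * (P r).re) {z : ℂ}
    (hz : z ∈ ball (0 : ℂ) 1) : m * (1 - ‖z‖ ^ 2) ≤ ‖1 - z‖ ^ 2 * (P z).re := by
  have hzn : ‖z‖ < 1 := by simpa using hz
  have hzn0 := norm_nonneg z
  have hpos : 0 ≤ 1 - ‖z‖ ^ 2 := by nlinarith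
  have key : ∀ r : ℝ, 0 < r → r < 1 →
      (1 - ‖z‖ ^ 2) * ((1 + r) ^ 2 * m) ≤ 4 * ‖1 - (r : ℂ) * z‖ ^ 2 * (P z).re := by
    intro r hr0 hr1
    refine le_trans ?_ (harnack_two hP hre hr0 hr1 hz)
    rw [mul_assoc]
    refine mul_le_mul_of_nonneg_left ?_ hpos
    have h1 := mul_le_mul_of_nonneg_left (hm r hr0 hr1) (sq_nonneg (1 + r))
    refine h1.trans_eq ?_
    have : 1 + r ≠ 0 := by linarith
    field_simp
    ring
  have hl1 : Tendsto (fun r : ℝ => (1 - ‖z‖ ^ 2) * ((1 + r) ^ 2 * m)) (𝓝[<] 1)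
      (𝓝 ((1 - ‖z‖ ^ 2) * ((1 + 1) ^ 2 * m))) := by
    have h5 : Continuous fun r : ℝ => (1 - ‖z‖ ^ 2) * ((1 + r) ^ 2 * m) := by fun_prop
    exact h5.continuousAt.mono_left nhdsWithin_le_nhds
  have hl2 : Tendsto (fun r : ℝ => 4 * ‖1 - (r : ℂ) * z‖ ^ 2 * (P z).re) (𝓝[<] 1)
      (𝓝 (4 * ‖1 - ((1 : ℝ) : ℂ) * z‖ ^ 2 * (P z).re)) := by
    have h5 : Continuous fun r : ℝ => 4 * ‖1 - (r : ℂ) * z‖ ^ 2 * (P z).re := by fun_prop
    exact h5.continuousAt.mono_left nhdsWithin_le_nhds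
  have hfin := le_of_tendsto_of_tendsto hl1 hl2 (by
    filter_upwards [Ioo_mem_nhdsLT (show (0 : ℝ) < 1 by norm_num)] with r hr
    exact key r hr.1 hr.2)
  rw [Complex.ofReal_one, one_mul] at hfin
  linarith

theorem re_cayley (z : ℂ) :
    ((1 + z) / (1 - z)).re = (1 - ‖z‖ ^ 2) / ‖1 - z‖ ^ 2 := by
  rw [Complex.div_re, ← Complex.normSq_eq_norm_sq, ← Complex.normSq_eq_norm_sq, ← add_div]
  congr 1
  simp only [Complex.normSq_apply, Complex.add_re, Complex.add_im, Complex.sub_re, Complex.sub_im,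
    Complex.one_re, Complex.one_im]
  ring

theorem one_sub_ne {z : ℂ} (hz : z ∈ ball (0 : ℂ) 1) : 1 - z ≠ 0 := by
  intro h
  have h1 : z = 1 := by linear_combination -h
  rw [h1, mem_ball_zero_iff, norm_one] at hz
  exact lt_irrefl _ hz

/-- linear combination with the geometric series -/
theorem tcoeff_sub_cayley (hP : DifferentiableOn ℂ P (ball 0 1)) (m : ℂ) {n : ℕ} (hn : 1 ≤ n) :
    tcoeff (fun z => P z - m * ((1 + z) / (1 - z))) n = tcoeff P n - 2 * m := by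
  have h1 : ∀ z ∈ ball (0 : ℂ) 1, P z - m * ((1 + z) / (1 - z)) =
      (P z + m) + (-2 * m) * (1 / (1 + (-1) * z)) := by
    intro z hz
    have h2 := one_sub_ne hz
    have h3 : (1 : ℂ) + (-1) * z ≠ 0 := by
      intro h
      apply h2
      linear_combination h
    have h4 : (1 : ℂ) + (-1) * z = 1 - z := by ring
    rw [h4]
    field_simp
    ring
  rw [tcoeff_congr h1]
  obtain ⟨k, rfl⟩ : ∃ k, n = k + 1 := ⟨n - 1, by omega⟩
  have hPa : AnalyticAt ℂ P 0 := analyticAt_of_diff hP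
  have hg : AnalyticAt ℂ (fun z : ℂ => 1 / (1 + (-1) * z)) 0 := by
    refine analyticAt_const.div (by fun_prop) ?_
    simp
  have hgm : AnalyticAt ℂ (fun z : ℂ => (-2 * m) * (1 / (1 + (-1) * z))) 0 := analyticAt_const.mul hg
  have hcc : AnalyticAt ℂ (fun _ : ℂ => m) 0 := analyticAt_const
  have hPm : AnalyticAt ℂ (fun z : ℂ => P z + m) 0 := hPa.add hcc
  have h5 := tcoeff_geom (b := -1) (by simp) (k + 1)
  rw [neg_neg, one_pow] at h5
  have h6 := tcoeff_const_succ m k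
  unfold tcoeff at h5 h6 ⊢
  rw [iteratedDeriv_fun_add hPm.contDiffAt hgm.contDiffAt, iteratedDeriv_const_mul_field,
    iteratedDeriv_fun_add hPa.contDiffAt hcc.contDiffAt, add_div, add_div, h6, mul_div_assoc, h5]
  ring

/-- **Regularity**: if `Re P ≥ 0` and `P` has at most a simple pole at the boundary point `1`
then the coefficients converge, to twice the infimum of `(1 - r)/(1 + r) Re P(r)`. -/
theorem coeff_tendsto (hP : DifferentiableOn ℂ P (ball 0 1))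
    (hre : ∀ z ∈ ball (0 : ℂ) 1, 0 ≤ (P z).re) {C : ℝ}
    (hC : ∀ z ∈ ball (0 : ℂ) 1, ‖1 - z‖ * ‖P z‖ ≤ C) :
    ∃ m : ℝ, 0 ≤ m ∧ (∀ m' : ℝ, (∀ r : ℝ, 0 < r → r < 1 →
      m' ≤ (1 - r) / (1 + r) * (P r).re) → m' ≤ m) ∧
      Tendsto (fun n => tcoeff P n) atTop (𝓝 (2 * m : ℂ)) := by
  set B : Set ℝ := (fun r : ℝ => (1 - r) / (1 + r) * (P r).re) '' Ioo 0 1 with hB
  have hrb : ∀ r : ℝ, r ∈ Ioo (0 : ℝ) 1 → (r : ℂ) ∈ ball (0 : ℂ) 1 := by
    intro r hr
    rw [mem_ball_zero_iff, Complex.norm_real, Real.norm_of_nonneg hr.1.le]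
    exact hr.2
  have hB0 : ∀ b ∈ B, 0 ≤ b := by
    rintro _ ⟨r, hr, rfl⟩
    have h1 := hre _ (hrb r hr)
    have h2 : 0 ≤ (1 - r) / (1 + r) := div_nonneg (by linarith [hr.2]) (by linarith [hr.1])
    exact mul_nonneg h2 h1
  have hBne : B.Nonempty := ⟨_, 1 / 2, by norm_num, rfl⟩
  have hbdd : BddBelow B := ⟨0, hB0⟩
  set m : ℝ := sInf B with hm
  have hm0 : 0 ≤ m := le_csInf hBne hB0
  have hmle : ∀ r : ℝ, 0 < r → r < 1 → m ≤ (1 - r) / (1 + r) * (P r).re := fun r hr0 hr1 =>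
    csInf_le hbdd ⟨r, ⟨hr0, hr1⟩, rfl⟩
  refine ⟨m, hm0, fun m' hm' => le_csInf hBne ?_, ?_⟩
  · rintro _ ⟨r, hr, rfl⟩
    exact hm' r hr.1 hr.2
  set P1 : ℂ → ℂ := fun z => P z - (m : ℂ) * ((1 + z) / (1 - z)) with hP1
  have hP1d : DifferentiableOn ℂ P1 (ball 0 1) := by
    intro z hz
    have h1 := hP.differentiableAt (isOpen_ball.mem_nhds hz)
    have h2 : DifferentiableAt ℂ (fun z : ℂ => (1 + z) / (1 - z)) z :=
      (differentiableAt_id.const_add 1).div (differentiableAt_id.const_sub 1) (one_sub_ne hz)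
    exact (h1.sub (h2.const_mul _)).differentiableWithinAt
  have hP1re' : ∀ z ∈ ball (0 : ℂ) 1, (P1 z).re = (P z).re - m * ((1 - ‖z‖ ^ 2) / ‖1 - z‖ ^ 2) := by
    intro z hz
    show (P z - (m : ℂ) * ((1 + z) / (1 - z))).re = _
    rw [Complex.sub_re, Complex.re_ofReal_mul, re_cayley z]
  have hP1re : ∀ z ∈ ball (0 : ℂ) 1, 0 ≤ (P1 z).re := by
    intro z hz
    have h1 := julia hP hre hmle hz
    have h2 : 0 < ‖1 - z‖ ^ 2 := pow_pos (norm_pos_iff.2 (one_sub_ne hz)) 2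
    rw [hP1re' z hz, sub_nonneg, mul_div_assoc', div_le_iff₀ h2]
    linarith
  have hP1C : ∀ z ∈ ball (0 : ℂ) 1, ‖1 - z‖ * ‖P1 z‖ ≤ C + m * 2 := by
    intro z hz
    have h1 := hC z hz
    have h2 : ‖P1 z‖ ≤ ‖P z‖ + m * (‖1 + z‖ / ‖1 - z‖) := by
      refine (norm_sub_le _ _).trans_eq ?_
      rw [norm_mul, norm_div, Complex.norm_real, Real.norm_of_nonneg hm0]
    have h3 : 0 < ‖1 - z‖ := norm_pos_iff.2 (one_sub_ne hz)
    have h4 : ‖1 + z‖ ≤ 2 := by
      rw [mem_ball_zero_iff] at hz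
      calc ‖1 + z‖ ≤ ‖(1 : ℂ)‖ + ‖z‖ := norm_add_le _ _
        _ ≤ 2 := by rw [norm_one]; linarith
    calc ‖1 - z‖ * ‖P1 z‖ ≤ ‖1 - z‖ * (‖P z‖ + m * (‖1 + z‖ / ‖1 - z‖)) :=
          mul_le_mul_of_nonneg_left h2 h3.le
      _ = ‖1 - z‖ * ‖P z‖ + m * ‖1 + z‖ := by
          field_simp
      _ ≤ C + m * 2 := by
          have := mul_le_mul_of_nonneg_left h4 hm0
          linarith
  rw [Metric.tendsto_atTop]
  intro ε hε
  obtain ⟨_, ⟨r, hr, rfl⟩, hrlt⟩ := exists_lt_of_csInf_lt hBne (show sInf B < m + ε / 4 by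
    rw [← hm]; linarith)
  have hmass := mass hP1d hP1re hP1C hr.1 hr.2 (show 0 < ε / 4 by positivity)
  have hPr : (1 - r) / (1 + r) * (P1 r).re = (1 - r) / (1 + r) * (P r).re - m := by
    rw [hP1re' _ (hrb r hr)]
    have h1 : ‖(r : ℂ)‖ = r := by rw [Complex.norm_real, Real.norm_of_nonneg hr.1.le]
    have h2 : ‖(1 : ℂ) - r‖ = 1 - r := by
      have : (1 : ℂ) - r = ((1 - r : ℝ) : ℂ) := by push_cast; ring
      rw [this, Complex.norm_real, Real.norm_of_nonneg (by linarith [hr.2])]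
    rw [h1, h2]
    have h3 : 0 < 1 - r := by linarith [hr.2]
    have h4 : 0 < 1 + r := by linarith [hr.1]
    field_simp
    ring
  rw [hPr] at hmass
  obtain ⟨N, hN⟩ := eventually_atTop.1 (hmass.and (eventually_ge_atTop 1))
  refine ⟨N, fun n hn => ?_⟩
  obtain ⟨h1, h2⟩ := hN n hn
  rw [dist_eq_norm, ← tcoeff_sub_cayley hP m h2]
  simp only at hrlt
  refine lt_of_le_of_lt h1 ?_
  linarith

/-- Existence of the limit for finite `w`. -/
theorem IsConvexMap.limit {f : ℂ → ℂ} (hf : IsConvexMap f) {w : ℂ} (hw : w ∉ f '' ball 0 1) :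
    ∃ L : ℝ, 0 ≤ L ∧ L ≤ Real.pi ^ 2 / 4 ∧
      Tendsto (fun n => ‖tcoeff (fun z => f z / (1 - f z / w)) n‖) atTop (𝓝 L) := by
  have hwf : ∀ z ∈ ball (0 : ℂ) 1, w - f z ≠ 0 := by
    intro z hz h
    exact hw ⟨z, hz, (sub_eq_zero.1 h).symm⟩
  obtain ⟨e, he, hsup⟩ := exists_support hf.isOpen_image hf.convex ⟨_, hf.zero_mem⟩ hw
  obtain ⟨ζ, hζ, C, hC⟩ := hf.exists_bdry hw
  have he0 : e ≠ 0 := by
    rintro rfl
    simp at he
  set P0 : ℂ → ℂ := fun z => 1 / (e * (w - f z)) with hP0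
  have hP0d : DifferentiableOn ℂ P0 (ball 0 1) := by
    intro z hz
    have h1 := (hf.analyticAt hz).differentiableAt
    exact ((differentiableAt_const _).div ((h1.const_sub w).const_mul e)
      (mul_ne_zero he0 (hwf z hz))).differentiableWithinAt
  have hP0re : ∀ z ∈ ball (0 : ℂ) 1, 0 < (P0 z).re := by
    intro z hz
    have h1 := hsup _ ⟨z, hz, rfl⟩
    have h2 : (P0 z).re = (e * (w - f z)).re / Complex.normSq (e * (w - f z)) := by
      rw [hP0]
      simp only [one_div, Complex.inv_re]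
    rw [h2]
    exact div_pos h1 (Complex.normSq_pos.2 (mul_ne_zero he0 (hwf z hz)))
  have hP0n : ∀ z, ‖P0 z‖ = 1 / ‖w - f z‖ := by
    intro z
    rw [hP0]
    simp only [norm_div, norm_one, norm_mul, he, one_mul]
  set P : ℂ → ℂ := fun z => P0 (ζ * z) with hP
  have hPd : DifferentiableOn ℂ P (ball 0 1) := by
    intro z hz
    exact (DifferentiableAt.comp (g := P0) z (hP0d.differentiableAt
      (isOpen_ball.mem_nhds (mul_mem_ball hζ hz))) (by fun_prop)).differentiableWithinAt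
  have hPre : ∀ z ∈ ball (0 : ℂ) 1, 0 ≤ (P z).re := fun z hz =>
    (hP0re _ (mul_mem_ball hζ hz)).le
  have hPC : ∀ z ∈ ball (0 : ℂ) 1, ‖1 - z‖ * ‖P z‖ ≤ C := by
    intro z hz
    have hz' := mul_mem_ball hζ hz
    have h1 := hC _ hz'
    have h2 : ‖ζ - ζ * z‖ = ‖1 - z‖ := by
      have : ζ - ζ * z = ζ * (1 - z) := by ring
      rw [this, norm_mul, hζ, one_mul]
    rw [h2] at h1
    have h3 : 0 < ‖w - f (ζ * z)‖ := norm_pos_iff.2 (hwf _ hz')
    show ‖1 - z‖ * ‖P0 (ζ * z)‖ ≤ C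
    rw [hP0n, mul_one_div, div_le_iff₀ h3]
    exact h1
  obtain ⟨m, hm0, -, hlim⟩ := coeff_tendsto hPd hPre hPC
  have h1 : Tendsto (fun n => ‖w‖ ^ 2 * ‖tcoeff P n‖) atTop (𝓝 (‖w‖ ^ 2 * ‖(2 * m : ℂ)‖)) :=
    hlim.norm.const_mul _
  have h2 : Tendsto (fun n => ‖tcoeff (fun z => f z / (1 - f z / w)) n‖) atTop
      (𝓝 (‖w‖ ^ 2 * ‖(2 * m : ℂ)‖)) := by
    refine h1.congr' ?_
    filter_upwards [eventually_ge_atTop 1] with n hn
    rw [hf.hat_eq hw he hn]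
    have h3 : ‖tcoeff P n‖ = ‖tcoeff P0 n‖ := norm_tcoeff_rot hP0d hζ n
    rw [h3]
  refine ⟨_, by positivity, ?_, h2⟩
  refine le_of_forall_pos_le_add fun ε hε => ?_
  exact le_of_tendsto h2 (hf.upper hw hε)

end Pool.Agent.MobConv
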