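import Pool.Agent.Lib.MP_4b1e7e_an.Asy.Julia

set_option autoImplicit false

/-!
The vertical strip maps: the limit of the coefficients.
-/

namespace Pool.Agent.MobConv

open Metric Set Filter Topology

section

variable {x : ℝ} (hx0 : 0 < x) (hxpi : x < Real.pi)

theorem mo_one {a : ℂ} (ha : 1 + (starRingEnd ℂ) a ≠ 0) : mo a 1 = 1 := by
  rw [mo, mul_one, add_comm, div_self ha]

include hx0 hxpi

theorem one_add_ua_ne : 1 + (starRingEnd ℂ) (ua x) ≠ 0 := by
  intro h
  have h1 := congrArg Complex.im h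
  simp only [Complex.add_im, Complex.one_im, Complex.conj_im, Complex.zero_im, zero_add] at h1
  have h2 := ua_im_pos hx0 hxpi
  linarith

theorem strip_one : strip x 1 = ((x / (2 * Real.sin x) : ℝ) : ℂ) := by
  have hs : 0 < Real.sin x := sin_pos' hx0 hxpi
  have hsC : (Real.sin x : ℂ) ≠ 0 := by exact_mod_cast hs.ne'
  rw [strip, mo_one (one_add_ua_ne hx0 hxpi), Complex.log_one]
  push_cast
  field_simp
  ring

theorem strip_cont_one : ContinuousAt (strip x) 1 := by
  have h0 := one_add_ua_ne hx0 hxpi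
  have h1 : ContinuousAt (mo (ua x)) 1 := by
    unfold mo
    refine ContinuousAt.div (by fun_prop) (by fun_prop) ?_
    rwa [mul_one]
  have h2 : ContinuousAt (fun z => Complex.log (mo (ua x) z)) 1 := by
    refine h1.clog ?_
    rw [mo_one h0]
    exact Complex.one_mem_slitPlane
  exact (h2.add continuousAt_const).div_const _

/-- the real axis -/
theorem strip_real_deriv {r : ℝ} (hr0 : 0 < r) (hr1 : r < 1) :
    HasDerivAt (fun r : ℝ => (strip x r).re) (1 / (1 + 2 * r * Real.cos x + r ^ 2)) r := by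
  have hrb : (r : ℂ) ∈ ball (0 : ℂ) 1 := by
    rw [mem_ball_zero_iff, Complex.norm_real, Real.norm_of_nonneg hr0.le]
    exact hr1
  have h1 := (strip_diffAt hx0 hxpi hrb).real_of_complex
  refine h1.congr_deriv ?_
  have h2 : (1 + ua x * (r : ℂ)) * (1 + (starRingEnd ℂ) (ua x) * r) =
      ((1 + 2 * r * Real.cos x + r ^ 2 : ℝ) : ℂ) := by
    have h3 : ua x + (starRingEnd ℂ) (ua x) = ((2 * Real.cos x : ℝ) : ℂ) := by
      rw [Complex.add_conj, ua_re]
    have h4 := mul_conj_one (a := ua x) ua_norm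
    push_cast at h3 ⊢
    linear_combination (r : ℂ) * h3 + (r : ℂ) ^ 2 * h4
  rw [h2, one_div, ← Complex.ofReal_inv, Complex.ofReal_re, one_div]

/-- the comparison on the real axis -/
theorem strip_real_ge {r : ℝ} (hr0 : 0 < r) (hr1 : r < 1) :
    x / (2 * Real.sin x) - (strip x r).re ≤ (1 - r) / ((1 + Real.cos x) * (1 + r)) := by
  have hs : 0 < Real.sin x := sin_pos' hx0 hxpi
  have hsc := Real.sin_sq_add_cos_sq x
  have hc1 : Real.cos x < 1 := by nlinarith
  have hc2 : -1 < Real.cos x := by nlinarith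
  have hc : 0 < 1 + Real.cos x := by linarith
  set h : ℝ → ℝ := fun r => (1 - r) / ((1 + Real.cos x) * (1 + r)) + (strip x r).re with hh
  have hder : ∀ t : ℝ, 0 < t → t < 1 → HasDerivAt h
      (((-1) * ((1 + Real.cos x) * (1 + t)) - (1 - t) * ((1 + Real.cos x) * 1)) /
        ((1 + Real.cos x) * (1 + t)) ^ 2 + 1 / (1 + 2 * t * Real.cos x + t ^ 2)) t := by
    intro t ht0 ht1
    have h1 : HasDerivAt (fun r : ℝ => 1 - r) (-1) t := by
      simpa using (hasDerivAt_id t).const_sub 1
    have h2 : HasDerivAt (fun r : ℝ => (1 + Real.cos x) * (1 + r)) ((1 + Real.cos x) * 1) t :=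
      ((hasDerivAt_id t).const_add 1).const_mul _
    exact (h1.fun_div h2 (by positivity)).fun_add (strip_real_deriv hx0 hxpi ht0 ht1)
  have hneg : ∀ t : ℝ, 0 < t → t < 1 →
      ((-1) * ((1 + Real.cos x) * (1 + t)) - (1 - t) * ((1 + Real.cos x) * 1)) /
        ((1 + Real.cos x) * (1 + t)) ^ 2 + 1 / (1 + 2 * t * Real.cos x + t ^ 2) ≤ 0 := by
    intro t ht0 ht1
    have hq : 0 < 1 + 2 * t * Real.cos x + t ^ 2 := by nlinarith
    have h1 : ((-1) * ((1 + Real.cos x) * (1 + t)) - (1 - t) * ((1 + Real.cos x) * 1)) /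
        ((1 + Real.cos x) * (1 + t)) ^ 2 = -(2 / ((1 + Real.cos x) * (1 + t) ^ 2)) := by
      field_simp
      ring
    rw [h1]
    have h2 : 1 / (1 + 2 * t * Real.cos x + t ^ 2) ≤ 2 / ((1 + Real.cos x) * (1 + t) ^ 2) := by
      rw [div_le_div_iff₀ hq (by positivity)]
      have h3 : 0 ≤ (1 - Real.cos x) * (1 - t) ^ 2 := by
        have : 0 ≤ 1 - Real.cos x := by linarith
        positivity
      nlinarith
    linarith
  have hanti : AntitoneOn h (Ioo 0 1) := by
    refine antitoneOn_of_deriv_nonpos (convex_Ioo 0 1) ?_ ?_ ?_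
    · intro t ht
      exact (hder t ht.1 ht.2).continuousAt.continuousWithinAt
    · intro t ht
      rw [interior_Ioo] at ht
      exact (hder t ht.1 ht.2).differentiableAt.differentiableWithinAt
    · intro t ht
      rw [interior_Ioo] at ht
      rw [(hder t ht.1 ht.2).deriv]
      exact hneg t ht.1 ht.2
  have hlim : Tendsto h (𝓝[<] 1) (𝓝 (x / (2 * Real.sin x))) := by
    have h1 : ContinuousAt h 1 := by
      have h2 : ContinuousAt (fun r : ℝ => (strip x r).re) 1 := by
        have h3 : ContinuousAt (fun r : ℝ => strip x (r : ℂ)) 1 := by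
          refine ContinuousAt.comp (g := strip x) (f := fun r : ℝ => (r : ℂ)) ?_
            Complex.continuous_ofReal.continuousAt
          rw [Complex.ofReal_one]
          exact strip_cont_one hx0 hxpi
        exact Complex.continuous_re.continuousAt.comp h3
      refine ContinuousAt.add ?_ h2
      refine ContinuousAt.div (by fun_prop) (by fun_prop) ?_
      positivity
    have h4 : h 1 = x / (2 * Real.sin x) := by
      simp only [hh]
      rw [Complex.ofReal_one, strip_one hx0 hxpi, Complex.ofReal_re, sub_self, zero_div, zero_add]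
    rw [← h4]
    exact h1.mono_left nhdsWithin_le_nhds
  have hle : x / (2 * Real.sin x) ≤ h r := by
    refine le_of_tendsto hlim ?_
    filter_upwards [Ioo_mem_nhdsLT hr1] with t ht
    exact hanti ⟨hr0, hr1⟩ ⟨hr0.trans ht.1, ht.2⟩ ht.1.le
  simp only [hh] at hle
  linarith

/-- reality on the real axis -/
theorem strip_real {r : ℝ} (hr0 : 0 < r) (hr1 : r < 1) : (strip x r).im = 0 := by
  have hrb : (r : ℂ) ∈ ball (0 : ℂ) 1 := by
    rw [mem_ball_zero_iff, Complex.norm_real, Real.norm_of_nonneg hr0.le]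
    exact hr1
  have hs : 0 < Real.sin x := sin_pos' hx0 hxpi
  have hsC : (Real.sin x : ℂ) ≠ 0 := by exact_mod_cast hs.ne'
  have h1 : strip x r = ((Complex.arg (mo (ua x) r) + x : ℝ) / (2 * Real.sin x) : ℝ) -
      ((Real.log ‖mo (ua x) r‖ / (2 * Real.sin x) : ℝ) : ℂ) * Complex.I := by
    rw [strip, Complex.log]
    push_cast
    field_simp
    ring_nf
    simp only [Complex.I_sq]
    ring
  have h2 : ‖mo (ua x) (r : ℂ)‖ = 1 := by
    rw [mo, norm_div, div_eq_one_iff_eq]
    · have h3 : (starRingEnd ℂ) (ua x) + r = (starRingEnd ℂ) (ua x) * (1 + ua x * r) := by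
        linear_combination (-(r : ℂ)) * mul_conj_one (a := ua x) ua_norm
      have h4 : (1 + ua x * (r : ℂ)) = (starRingEnd ℂ) (1 + (starRingEnd ℂ) (ua x) * r) := by
        simp
      rw [h3, norm_mul, conj_norm ua_norm, one_mul, h4, RCLike.norm_conj]
    · rw [norm_ne_zero_iff]
      exact one_add_ne (conj_norm ua_norm) hrb
  rw [h1, h2, Real.log_one, zero_div, Complex.ofReal_zero, zero_mul, sub_zero, Complex.ofReal_im]

/-- **The limit for the vertical strips.** -/
theorem strip_limit : ∃ L : ℝ, x ^ 2 / 4 ≤ L ∧ Tendsto (fun n => ‖tcoeff (fun z => strip x z /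
      (1 - strip x z / ((x / (2 * Real.sin x) : ℝ) : ℂ))) n‖) atTop (𝓝 L) := by
  have hs : 0 < Real.sin x := sin_pos' hx0 hxpi
  have hsc := Real.sin_sq_add_cos_sq x
  have hc1 : Real.cos x < 1 := by nlinarith
  have hc2 : -1 < Real.cos x := by nlinarith
  have hc : 0 < 1 + Real.cos x := by linarith
  have hf := strip_convexMap hx0 hxpi
  have hw := strip_notMem hx0 hxpi
  set W : ℝ := x / (2 * Real.sin x) with hW
  have hWpos : 0 < W := by positivity
  have hre : ∀ z ∈ ball (0 : ℂ) 1, (strip x z).re < W := by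
    intro z hz
    have h1 : strip x z ∈ strip x '' ball 0 1 := ⟨z, hz, rfl⟩
    rw [strip_image hx0 hxpi] at h1
    exact h1.2
  have hwf : ∀ z ∈ ball (0 : ℂ) 1, (W : ℂ) - strip x z ≠ 0 := by
    intro z hz h
    have h1 := congrArg Complex.re h
    rw [Complex.sub_re, Complex.ofReal_re, Complex.zero_re] at h1
    linarith [hre z hz]
  set P : ℂ → ℂ := fun z => 1 / (1 * ((W : ℂ) - strip x z)) with hP
  have hPd : DifferentiableOn ℂ P (ball 0 1) := by
    intro z hz
    have h1 := (hf.analyticAt hz).differentiableAt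
    exact ((differentiableAt_const _).div ((h1.const_sub _).const_mul 1)
      (mul_ne_zero one_ne_zero (hwf z hz))).differentiableWithinAt
  have hPre : ∀ z ∈ ball (0 : ℂ) 1, 0 ≤ (P z).re := by
    intro z hz
    have h2 : (P z).re = (1 * ((W : ℂ) - strip x z)).re /
        Complex.normSq (1 * ((W : ℂ) - strip x z)) := by
      rw [hP]
      simp only [one_div, Complex.inv_re]
    rw [h2, one_mul, Complex.sub_re, Complex.ofReal_re]
    exact div_nonneg (by linarith [hre z hz]) (Complex.normSq_nonneg _)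
  have hlip : ∀ z ∈ ball (0 : ℂ) 1, ‖1 - z‖ ≤ 4 * ‖(W : ℂ) - strip x z‖ := by
    intro z hz
    have h1 : Tendsto (fun r : ℝ => (r : ℂ)) (𝓝[<] 1) (𝓝 1) := by
      have := Complex.continuous_ofReal.tendsto (1 : ℝ)
      rw [Complex.ofReal_one] at this
      exact this.mono_left nhdsWithin_le_nhds
    have h2 : Tendsto (fun r : ℝ => strip x (r : ℂ)) (𝓝[<] 1) (𝓝 (W : ℂ)) := by
      have h3 := (strip_cont_one hx0 hxpi).tendsto
      rw [strip_one hx0 hxpi] at h3
      exact h3.comp h1
    have h3 : Tendsto (fun r : ℝ => ‖(r : ℂ) - z‖) (𝓝[<] 1) (𝓝 ‖1 - z‖) :=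
      (h1.sub_const z).norm
    have h4 : Tendsto (fun r : ℝ => 4 * ‖strip x (r : ℂ) - strip x z‖) (𝓝[<] 1)
        (𝓝 (4 * ‖(W : ℂ) - strip x z‖)) := ((h2.sub_const _).norm).const_mul 4
    refine le_of_tendsto_of_tendsto h3 h4 ?_
    filter_upwards [Ioo_mem_nhdsLT (show (0 : ℝ) < 1 by norm_num)] with r hr
    refine hf.lipschitz_inv ?_ hz
    rw [mem_ball_zero_iff, Complex.norm_real, Real.norm_of_nonneg hr.1.le]
    exact hr.2
  have hPC : ∀ z ∈ ball (0 : ℂ) 1, ‖1 - z‖ * ‖P z‖ ≤ 4 := by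
    intro z hz
    have h3 : 0 < ‖(W : ℂ) - strip x z‖ := norm_pos_iff.2 (hwf _ hz)
    have h4 : ‖P z‖ = 1 / ‖(W : ℂ) - strip x z‖ := by
      rw [hP]
      simp only [norm_div, norm_one, one_mul]
    rw [h4, mul_one_div, div_le_iff₀ h3]
    exact hlip z hz
  obtain ⟨m, hm0, hmmax, hlim⟩ := coeff_tendsto hPd hPre hPC
  have hm : 1 + Real.cos x ≤ m := by
    apply hmmax
    intro r hr0 hr1
    have hrb : (r : ℂ) ∈ ball (0 : ℂ) 1 := by
      rw [mem_ball_zero_iff, Complex.norm_real, Real.norm_of_nonneg hr0.le]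
      exact hr1
    have h1 := strip_real_ge hx0 hxpi hr0 hr1
    have h2 := hre _ hrb
    have h3 : strip x (r : ℂ) = (((strip x (r : ℂ)).re : ℝ) : ℂ) := by
      apply Complex.ext
      · simp
      · rw [strip_real hx0 hxpi hr0 hr1]
        simp
    have h4 : (P r).re = 1 / (W - (strip x (r : ℂ)).re) := by
      show (1 / (1 * ((W : ℂ) - strip x r))).re = _
      rw [h3, one_mul, ← Complex.ofReal_sub, ← Complex.ofReal_one, ← Complex.ofReal_div,
        Complex.ofReal_re, Complex.ofReal_re]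
    rw [h4, ← hW] at *
    have h5 : 0 < W - (strip x (r : ℂ)).re := by linarith
    rw [mul_one_div, le_div_iff₀ h5]
    have h6 : (1 + Real.cos x) * (W - (strip x (r : ℂ)).re) ≤
        (1 + Real.cos x) * ((1 - r) / ((1 + Real.cos x) * (1 + r))) :=
      mul_le_mul_of_nonneg_left h1 hc.le
    have h7 : (1 + Real.cos x) * ((1 - r) / ((1 + Real.cos x) * (1 + r))) = (1 - r) / (1 + r) := by
      field_simp
    linarith
  have h1 : Tendsto (fun n => ‖(W : ℂ)‖ ^ 2 * ‖tcoeff P n‖) atTop
      (𝓝 (‖(W : ℂ)‖ ^ 2 * ‖(2 * m : ℂ)‖)) := hlim.norm.const_mul _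
  refine ⟨_, ?_, h1.congr' ?_⟩
  · have h2 : ‖(2 * m : ℂ)‖ = 2 * m := by
      rw [norm_mul, Complex.norm_real, Real.norm_of_nonneg hm0]
      simp
    rw [h2, Complex.norm_real, Real.norm_of_nonneg hWpos.le]
    have h3 : W ^ 2 * (2 * (1 + Real.cos x)) ≤ W ^ 2 * (2 * m) := by
      have : 0 ≤ W ^ 2 := sq_nonneg _
      nlinarith
    refine le_trans ?_ h3
    have h4 : W ^ 2 * (2 * (1 + Real.cos x)) = x ^ 2 / (2 * (1 - Real.cos x)) := by
      have h5 : Real.sin x ^ 2 = (1 - Real.cos x) * (1 + Real.cos x) := by linarith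
      have h6 : 0 < 1 - Real.cos x := by linarith
      rw [hW, div_pow, mul_pow, h5]
      field_simp
    rw [h4]
    refine div_le_div_of_nonneg_left (sq_nonneg x) (by linarith) (by linarith)
  · filter_upwards [eventually_ge_atTop 1] with n hn
    exact (hf.hat_eq hw (e := 1) (by simp) hn).symm

end

end Pool.Agent.MobConv
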